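import Pool.Agent.H.MP_59b15d_al.symh.G1
import Pool.Agent.H.MP_59b15d_al.h77h.Rot
import Pool.Agent.H.MP_59b15d_al.h76m.Ha
import Pool.Agent.H.MP_59b15d_al.h19s.Hopf
import Pool.Agent.H.MP_59b15d_al.h76r.Sd

/-!
# Birman injectivity, part 1: auxiliary lemmas
-/

set_option autoImplicit false

namespace Pool.MP_59b15d_al.H95H

open Pool.MP_59b15d_al.Sym (Gg cW)
open Pool.MP_59b15d_al.SymH

/-- The centraliser of a generator. -/
theorem cent_gen {ι : Type*} (i : ι) (v : FreeGroup ι)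
    (h : v * FreeGroup.of i = FreeGroup.of i * v) : ∃ k : ℤ, v = FreeGroup.of i ^ k := by
  classical
  obtain ⟨y, k, l, hk, hl⟩ := Pool.MP_59b15d_al.H76.commute_cyclic v (FreeGroup.of i) h
  let χ : FreeGroup ι →* Multiplicative ℤ :=
    FreeGroup.lift (fun j => if j = i then Multiplicative.ofAdd 1 else 1)
  have h1 : χ (FreeGroup.of i) = Multiplicative.ofAdd 1 := by simp [χ]
  have h2 : l * Multiplicative.toAdd (χ y) = 1 := by
    have h3 := congrArg (fun z => Multiplicative.toAdd (χ z)) hl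
    simp only [map_zpow, h1, toAdd_ofAdd, toAdd_zpow, smul_eq_mul] at h3
    exact h3.symm
  have h4 : l = 1 ∨ l = -1 := Int.eq_one_or_neg_one_of_mul_eq_one h2
  rcases h4 with rfl | rfl
  · rw [zpow_one] at hl
    exact ⟨k, by rw [hl]; exact hk⟩
  · refine ⟨-k, ?_⟩
    rw [hl, ← zpow_mul, neg_mul_neg, one_mul]
    exact hk

/-- Elements in all normal subgroups of finite index. -/
theorem resid_one {ι : Type*} (z : FreeGroup ι)
    (hz : ∀ U : Subgroup (FreeGroup ι), U.Normal → U.FiniteIndex → z ∈ U) : z = 1 := by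
  by_contra hne
  obtain ⟨S, φ, hφ⟩ := Pool.MP_59b15d_al.H19S.resid z hne
  exact hφ (MonoidHom.mem_ker.1 (hz φ.ker inferInstance (Subgroup.finiteIndex_ker φ)))

theorem comap_finIdx {G G' : Type*} [Group G] [Group G'] (f : G →* G') (U : Subgroup G')
    (hU : U.FiniteIndex) : (U.comap f).FiniteIndex := by
  refine ⟨?_⟩
  rw [Subgroup.index_comap]
  have := Subgroup.isFiniteRelIndex_of_finiteIndex (H := U) (K := f.range)
  exact Subgroup.relIndex_ne_zero

variable {h n : ℕ}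

/-- An element killed by `kp` lies in every normal subgroup containing the last puncture. -/
theorem mem_of_kp {Δ : Subgroup (FG h (n + 1))} (hΔ : Δ.Normal) (hT : xg (Fin.last n) ∈ Δ)
    {z : FG h (n + 1)} (hz : kp h n z = 1) : z ∈ Δ := by
  haveI := hΔ
  have h1 : ((QuotientGroup.mk' Δ).comp (io h n)).comp (kp h n) = QuotientGroup.mk' Δ := by
    ext x
    rcases x with c | j
    · rw [MonoidHom.comp_apply, MonoidHom.comp_apply, kp_inl, io_inl]
    · refine Fin.lastCases ?_ (fun i => ?_) j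
      · change (QuotientGroup.mk' Δ) (io h n (kp h n (xg (Fin.last n)))) =
          QuotientGroup.mk' Δ (xg (Fin.last n))
        rw [kp_last, map_one, map_one]
        exact ((QuotientGroup.eq_one_iff _).2 hT).symm
      · change (QuotientGroup.mk' Δ) (io h n (kp h n (xg i.castSucc))) =
          QuotientGroup.mk' Δ (xg i.castSucc)
        rw [kp_cast, io_xg]
  have h2 := DFunLike.congr_fun h1 z
  rw [MonoidHom.comp_apply, hz, map_one] at h2
  exact (QuotientGroup.eq_one_iff _).1 h2.symm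

theorem rotA_apply (ν N : ℕ) (z : FG ν N) : rotA ν N z = rotH ν N z := rfl

theorem rotA_inl (c : Fin h ⊕ Fin h) : rotA h (n + 1) (FreeGroup.of (Sum.inl c)) =
    FreeGroup.of (Sum.inl c) := rotH_inl c

theorem rotA_last : rotA h (n + 1) (xg (Fin.last n)) = xn h (n + 1) := by
  rw [rotA_apply, rotH_xg, Fin.succ_last, per_last]

theorem rotA_cast (i : Fin n) : rotA h (n + 1) (xg i.castSucc) = xg i.succ := by
  rw [rotA_apply, rotH_xg]
  have h1 : (i.castSucc.succ : Fin (n + 2)) = i.succ.castSucc := by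
    ext
    simp
  rw [h1, per_castSucc]

theorem rotA_xn : rotA h (n + 1) (xn h (n + 1)) = cH h (n + 1) * xg 0 * (cH h (n + 1))⁻¹ := by
  rw [rotA_apply, rotH_xn]
  have h1 : (0 : Fin (n + 2)) = (0 : Fin (n + 1)).castSucc := rfl
  rw [h1, per_castSucc]

/-- The centraliser of the boundary. -/
theorem cs_xn (M : Subgroup (FG h (n + 1))) (hM : M.Normal) (hMf : M.FiniteIndex) :
    ∃ M' : Subgroup (FG h (n + 1)), M'.Normal ∧ M'.FiniteIndex ∧ M' ≤ M ∧
      ∀ g : FG h (n + 1), g * xn h (n + 1) * g⁻¹ * (xn h (n + 1))⁻¹ ∈ M' →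
        ∃ k : ℤ, g * xn h (n + 1) ^ k ∈ M := by
  set σ := rotA h (n + 1) with hσ
  haveI h1n : (M.comap σ.toMonoidHom).Normal := inferInstance
  haveI h1f : (M.comap σ.toMonoidHom).FiniteIndex := comap_finIdx _ _ hMf
  obtain ⟨M1, hn, hf, hle, h1⟩ := Pool.MP_59b15d_al.H76.free_cs
    (Sum.inr (Fin.last n) : (Fin h ⊕ Fin h) ⊕ Fin (n + 1)) (M.comap σ.toMonoidHom)
  have e1 : ∀ z, σ (σ⁻¹ z) = z := fun z => by
    rw [← MulAut.mul_apply, mul_inv_cancel, MulAut.one_apply]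
  have e2 : ∀ z, σ⁻¹ (σ z) = z := fun z => by
    rw [← MulAut.mul_apply, inv_mul_cancel, MulAut.one_apply]
  refine ⟨M1.comap (σ⁻¹ : MulAut (FG h (n + 1))).toMonoidHom, inferInstance,
    comap_finIdx _ _ hf, ?_, ?_⟩
  · intro x hx
    have h2 : σ (σ⁻¹ x) ∈ M := hle hx
    rwa [e1] at h2
  · intro g hg
    have h2 : σ⁻¹ (g * xn h (n + 1) * g⁻¹ * (xn h (n + 1))⁻¹) ∈ M1 := hg
    rw [← rotA_last, ← hσ, map_mul, map_mul, map_mul, map_inv, map_inv, e2] at h2
    obtain ⟨k, hk⟩ := h1 _ h2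
    refine ⟨k, ?_⟩
    have h3 : σ (σ⁻¹ g * xg (Fin.last n) ^ k) ∈ M := hk
    rw [map_mul, map_zpow, e1, hσ, rotA_last] at h3
    exact h3

/-- Levels in which the boundary has large order. -/
theorem exists_order (hh : 1 ≤ h) (M : ℕ) (hM : 0 < M) : ∃ V : Subgroup (FG h n), V.Normal ∧
    V.FiniteIndex ∧ ∀ k : ℤ, xn h n ^ k ∈ V → (M : ℤ) ∣ k := by
  obtain ⟨h', rfl⟩ : ∃ h', h = h' + 1 := ⟨h - 1, by omega⟩
  haveI : NeZero M := ⟨hM.ne'⟩
  haveI : NeZero (2 * M) := ⟨by omega⟩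
  let g : (Fin (h' + 1) ⊕ Fin (h' + 1)) ⊕ Fin n → DihedralGroup (2 * M)
    | Sum.inl (Sum.inl i) => if i = 0 then DihedralGroup.r 1 else 1
    | Sum.inl (Sum.inr i) => if i = 0 then DihedralGroup.sr 0 else 1
    | Sum.inr _ => 1
  let φ : FG (h' + 1) n →* DihedralGroup (2 * M) := FreeGroup.lift g
  have hc : φ (cW (h' + 1) n) = DihedralGroup.r 2 := by
    rw [cW, map_mul, map_list_prod, map_list_prod, List.map_ofFn, List.map_ofFn]
    have e2 : (List.ofFn (⇑φ ∘ fun i : Fin n =>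
        (FreeGroup.of (Sum.inr i) : FG (h' + 1) n))).prod = 1 := by
      apply List.prod_eq_one
      intro x hx
      rw [List.mem_ofFn] at hx
      obtain ⟨i, rfl⟩ := hx
      simp [φ, g]
    rw [e2, mul_one, List.ofFn_succ, List.prod_cons]
    have e3 : (List.ofFn fun i : Fin h' => (⇑φ ∘ fun i : Fin (h' + 1) =>
        (FreeGroup.of (Sum.inl (Sum.inl i)) : FG (h' + 1) n) * FreeGroup.of (Sum.inl (Sum.inr i)) *
        (FreeGroup.of (Sum.inl (Sum.inl i)))⁻¹ * (FreeGroup.of (Sum.inl (Sum.inr i)))⁻¹)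
        i.succ).prod = 1 := by
      apply List.prod_eq_one
      intro x hx
      rw [List.mem_ofFn] at hx
      obtain ⟨i, rfl⟩ := hx
      simp [φ, g]
    rw [e3, mul_one]
    simp only [Function.comp_apply, map_mul, map_inv, φ, FreeGroup.lift_apply_of, g, if_true]
    simp
    ring_nf
  have hx : ∀ k : ℤ, φ (xn (h' + 1) n ^ k) =
      DihedralGroup.r ((-2 : ZMod (2 * M)) * (k : ZMod (2 * M))) := by
    intro k
    rw [xn, map_zpow, map_inv, hc, DihedralGroup.inv_r, DihedralGroup.r_zpow]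
  refine ⟨φ.ker, inferInstance, Subgroup.finiteIndex_ker φ, fun k hk => ?_⟩
  rw [MonoidHom.mem_ker, hx, DihedralGroup.one_def] at hk
  have h0 : ((-2 : ZMod (2 * M)) * (k : ZMod (2 * M))) = 0 := by
    injection hk
  have h1 : ((-2 * k : ℤ) : ZMod (2 * M)) = 0 := by
    push_cast
    exact h0
  rw [ZMod.intCast_zmod_eq_zero_iff_dvd] at h1
  obtain ⟨c, hc⟩ := h1
  refine ⟨-c, ?_⟩
  push_cast at hc
  have h2 : (2 : ℤ) * k = 2 * (M * -c) := by linarith
  exact mul_left_cancel₀ two_ne_zero h2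

end Pool.MP_59b15d_al.H95H
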