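import Pool.Agent.H.MP_59b15d_al.h95h.Bi1
import Pool.Agent.H.MP_59b15d_al.sym.Glue
import Pool.Agent.H.MP_59b15d_al.h76r.Sd

/-!
# Birman injectivity, part 2
-/

set_option autoImplicit false

namespace Pool.MP_59b15d_al.H95H

open Pool.MP_59b15d_al.Sym (Gg cW)
open Pool.MP_59b15d_al.SymH

variable {h n : ℕ}

/-- The local statement: modulo every level, `p` is the conjugation by `w * T ^ k`. -/
theorem birman_loc (h3 : 3 ≤ h + (n + 1)) (p : MulAut (FG h (n + 1)))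
    (hp : p ∈ CPf h (n + 1))
    (hk : ∀ z, kp h n (p z) = kp h n z) (w : FG h (n + 1))
    (hw : p (xg (Fin.last n)) = w * xg (Fin.last n) * w⁻¹) (hw1 : kp h n w = 1)
    (U : Subgroup (FG h (n + 1))) (hU : U.Normal) (hUf : U.FiniteIndex) :
    ∃ k : ℤ, ∀ y, p y * ((w * xg (Fin.last n) ^ k) * y * (w * xg (Fin.last n) ^ k)⁻¹)⁻¹ ∈ U := by
  obtain ⟨hp1, hp2⟩ := hp
  -- the conjugators
  have hv : ∀ j : Fin n, ∃ v : FG h (n + 1), kp h n v = 1 ∧
      p (xg j.castSucc) = v * xg j.castSucc * v⁻¹ := by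
    intro j
    obtain ⟨u, hu⟩ := hp1 j.castSucc.castSucc
    rw [per_castSucc] at hu
    have h1 := congrArg (kp h n) hu
    rw [hk, map_mul, map_mul, map_inv, kp_cast] at h1
    have h2 : kp h n u * xg j = xg j * kp h n u := eq_mul_inv_iff_mul_eq.1 h1 |>.symm
    obtain ⟨k, hk1⟩ := cent_gen _ _ h2
    refine ⟨u * xg j.castSucc ^ (-k), ?_, ?_⟩
    · rw [map_mul, map_zpow, kp_cast, hk1, zpow_neg, mul_inv_cancel]
    · rw [hu]
      group
  choose v hv1 hv2 using hv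
  set σ := rotA h (n + 1) with hσ
  have e1 : ∀ z, σ (σ⁻¹ z) = z := fun z => by
    rw [← MulAut.mul_apply, mul_inv_cancel, MulAut.one_apply]
  have e2 : ∀ z, σ⁻¹ (σ z) = z := fun z => by
    rw [← MulAut.mul_apply, inv_mul_cancel, MulAut.one_apply]
  set q : MulAut (FG h (n + 1)) := MulAut.conj w⁻¹ * p with hq
  have hqa : ∀ y, q y = w⁻¹ * p y * w := fun y => by
    rw [hq, MulAut.mul_apply, MulAut.conj_apply, inv_inv]
  set f : MulAut (FG h (n + 1)) := σ * q * σ⁻¹ with hf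
  have hfa : ∀ y, f (σ y) = σ (q y) := fun y => by
    rw [hf, MulAut.mul_apply, MulAut.mul_apply, e2]
  obtain ⟨Γ, hΓn, hΓf, hΓc, -, hΓ⟩ := Pool.MP_59b15d_al.Sym.glue (m := h) (s := n + 1)
    (fun _ => True) (by
      rw [Nat.card_eq_fintype_card, Fintype.card_subtype]
      simpa using h3) (U.comap (σ⁻¹ : MulAut (FG h (n + 1))).toMonoidHom) inferInstance
      (comap_finIdx _ _ hUf) (fun i hi => absurd trivial hi)
  -- the level of `kp`
  have hΔ : ∀ z, kp h n z = 1 → σ z ∈ Γ := by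
    intro z hz
    have hT : xg (Fin.last n) ∈ Γ.comap σ.toMonoidHom := by
      change σ (xg (Fin.last n)) ∈ Γ
      rw [hσ, rotA_last, xn]
      exact inv_mem hΓc
    have := mem_of_kp (Δ := Γ.comap σ.toMonoidHom) inferInstance hT hz
    exact this
  have hfz : ∀ z, f z * z⁻¹ ∈ Γ := by
    intro z
    rw [← e1 z, hfa, ← map_inv, ← map_mul]
    apply hΔ
    rw [map_mul, hqa, map_mul, map_mul, map_inv, hw1, hk, map_inv]
    group
  have hfx : f (xn h (n + 1)) = xn h (n + 1) := by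
    rw [← rotA_last, ← hσ, hfa, hqa, hw]
    congr 1
    group
  have hfc : f (cW h (n + 1)) = cW h (n + 1) := by
    rw [xn, map_inv] at hfx
    exact inv_injective hfx
  have hfl : ∀ j : Fin n, f (xg j.succ) = σ (w⁻¹ * v j) * xg j.succ * (σ (w⁻¹ * v j))⁻¹ := by
    intro j
    rw [← rotA_cast, ← hσ, hfa, hqa, hv2, ← map_inv, ← map_mul, ← map_mul]
    congr 1
    group
  have hf0 : f (xg 0) = (f (cH h (n + 1)))⁻¹ * (σ w)⁻¹ * cH h (n + 1) * xg 0 *
      ((f (cH h (n + 1)))⁻¹ * (σ w)⁻¹ * cH h (n + 1))⁻¹ := by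
    have h1 : f (σ (xn h (n + 1))) = σ (q (xn h (n + 1))) := hfa _
    rw [hqa, hp2, map_mul, map_mul, map_inv, hσ, rotA_xn, ← hσ, map_mul, map_mul, map_inv] at h1
    have h2 : f (xg 0) = (f (cH h (n + 1)))⁻¹ *
        (f (cH h (n + 1)) * f (xg 0) * (f (cH h (n + 1)))⁻¹) * f (cH h (n + 1)) := by group
    rw [h2, h1]
    group
  let W : Fin (n + 1) → FG h (n + 1) :=
    Fin.cases ((f (cH h (n + 1)))⁻¹ * (σ w)⁻¹ * cH h (n + 1)) (fun j => σ (w⁻¹ * v j))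
  obtain ⟨k, hk2⟩ := hΓ f W hfc (by
    intro i
    refine Fin.cases ?_ (fun j => ?_) i
    · exact hf0
    · exact hfl j) (by
    intro i _
    refine Fin.cases ?_ (fun j => ?_) i
    · change (f (cH h (n + 1)))⁻¹ * (σ w)⁻¹ * cH h (n + 1) ∈ Γ
      have h1 : (f (cH h (n + 1)))⁻¹ * (σ w)⁻¹ * cH h (n + 1) =
          (f (cH h (n + 1)))⁻¹ * ((σ w)⁻¹ * (f (cH h (n + 1)) * (cH h (n + 1))⁻¹)⁻¹) *
          (f (cH h (n + 1)))⁻¹⁻¹ := by
        group
      rw [h1]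
      exact hΓn.conj_mem _ (mul_mem (inv_mem (hΔ w hw1)) (inv_mem (hfz _))) _
    · change σ (w⁻¹ * v j) ∈ Γ
      apply hΔ
      rw [map_mul, map_inv, hw1, hv1]
      group) hfz
  refine ⟨-k, fun y => ?_⟩
  have h4 := hk2 (σ y)
  have h5 : cW h (n + 1) = σ ((xg (Fin.last n))⁻¹) := by
    rw [map_inv, hσ, rotA_last, xn, inv_inv]
  rw [hfa, h5, ← map_zpow, ← map_inv, ← map_mul, ← map_mul, ← map_inv, ← map_mul] at h4
  have h6 : σ⁻¹ (σ (q y * ((xg (Fin.last n))⁻¹ ^ k * y * ((xg (Fin.last n))⁻¹ ^ k)⁻¹)⁻¹)) ∈ U := h4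
  rw [e2, hqa] at h6
  have h7 := hU.conj_mem _ h6 w
  convert h7 using 1
  rw [inv_zpow', zpow_neg]
  group

end Pool.MP_59b15d_al.H95H
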