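import Pool.Agent.H.MP_59b15d_al.h95h.Bi2
import Pool.Agent.H.MP_59b15d_al.h76r.Sd

/-!
# Birman injectivity, part 3
-/

set_option autoImplicit false

namespace Pool.MP_59b15d_al.H95H

open Pool.MP_59b15d_al.Sym (Gg cW)
open Pool.MP_59b15d_al.SymH

variable {h n : ℕ}

/-- The Birman injectivity in the general case. -/
theorem birman_big (hh : 1 ≤ h) (h3 : 3 ≤ h + (n + 1)) (p : MulAut (FG h (n + 1)))
    (hp : p ∈ CPf h (n + 1))
    (hk : ∀ z, kp h n (p z) = kp h n z) (w : FG h (n + 1))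
    (hw : p (xg (Fin.last n)) = w * xg (Fin.last n) * w⁻¹) (hw1 : kp h n w = 1) : p = 1 := by
  have key : ∀ W : Subgroup (FG h (n + 1)), W.Normal → W.FiniteIndex →
      ∀ y, p y * y⁻¹ ∈ W := by
    intro W hWn hWf y
    -- the order of the boundary modulo `W`
    have hM : ∃ M : ℕ, 0 < M ∧ xn h (n + 1) ^ M ∈ W :=
      ⟨W.index, Nat.pos_of_ne_zero hWf.index_ne_zero, W.pow_index_mem _⟩
    obtain ⟨M, hM0, hM1⟩ := hM
    obtain ⟨V, hVn, hVf, hV⟩ := exists_order (n := n) hh M hM0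
    have hVkn : (V.comap (kp h n)).Normal := inferInstance
    have hVkf : (V.comap (kp h n)).FiniteIndex := comap_finIdx _ _ hVf
    obtain ⟨M', hMn, hMf, hMle, hM'⟩ := cs_xn (W ⊓ V.comap (kp h n)) inferInstance inferInstance
    obtain ⟨k, hk1⟩ := birman_loc h3 p hp hk w hw hw1 M' hMn hMf
    set g := w * xg (Fin.last n) ^ k with hg
    have h1 := inv_mem (hk1 (xn h (n + 1)))
    rw [hp.2, mul_inv_rev, inv_inv] at h1
    obtain ⟨m, hm⟩ := hM' g h1
    have h2 : kp h n (g * xn h (n + 1) ^ m) ∈ V := hm.2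
    rw [hg, map_mul, map_mul, map_zpow, map_zpow, hw1, kp_last, kp_xn, one_zpow, one_mul,
      one_mul] at h2
    obtain ⟨c, hc⟩ := hV m h2
    have h4 : xn h (n + 1) ^ m ∈ W := by
      rw [hc, zpow_mul, zpow_natCast]
      exact zpow_mem hM1 c
    have h5 : g ∈ W := by
      have h60 : g * xn h (n + 1) ^ m ∈ W := hm.1
      have h6 := W.mul_mem h60 (W.inv_mem h4)
      rwa [mul_inv_cancel_right] at h6
    have h7 : p y * (g * y * g⁻¹)⁻¹ ∈ W := (hMle (hk1 y)).1
    have h8 : g * y * g⁻¹ * y⁻¹ ∈ W := by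
      have h9 : g * y * g⁻¹ * y⁻¹ = g * (y * g⁻¹ * y⁻¹) := by group
      rw [h9]
      exact mul_mem h5 (hWn.conj_mem _ (inv_mem h5) y)
    have h10 : p y * y⁻¹ = p y * (g * y * g⁻¹)⁻¹ * (g * y * g⁻¹ * y⁻¹) := by group
    rw [h10]
    exact mul_mem h7 h8
  ext1 y
  rw [MulAut.one_apply]
  exact mul_inv_eq_one.1 (resid_one _ fun W hWn hWf => key W hWn hWf y)

/-! ### The torus with one puncture and one boundary component -/

/-- The first handle generators. -/
abbrev ga (N : ℕ) : FG 1 N := FreeGroup.of (Sum.inl (Sum.inl 0))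

/-- The second handle generator. -/
abbrev gb (N : ℕ) : FG 1 N := FreeGroup.of (Sum.inl (Sum.inr 0))

theorem cW11 : cW 1 1 = ga 1 * gb 1 * (ga 1)⁻¹ * (gb 1)⁻¹ * xg 0 := by
  simp [cW]

theorem cW12 : cW 1 2 = ga 2 * gb 2 * (ga 2)⁻¹ * (gb 2)⁻¹ * (xg 0 * xg 1) := by
  simp [cW]

/-- Extensionality for homomorphisms. -/
theorem hom_ext1 {G : Type*} [Group G] {f g : FG 1 1 →* G} (h1 : f (ga 1) = g (ga 1))
    (h2 : f (gb 1) = g (gb 1)) (h3 : f (xg 0) = g (xg 0)) : f = g := by
  ext x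
  rcases x with (x | x) | x
  · rw [Subsingleton.elim x 0]
    exact h1
  · rw [Subsingleton.elim x 0]
    exact h2
  · rw [Subsingleton.elim x 0]
    exact h3

theorem hom_ext2 {G : Type*} [Group G] {f g : FG 1 2 →* G} (h1 : f (ga 2) = g (ga 2))
    (h2 : f (gb 2) = g (gb 2)) (h3 : f (xg 0) = g (xg 0)) (h4 : f (xg 1) = g (xg 1)) :
    f = g := by
  ext x
  rcases x with (x | x) | x
  · rw [Subsingleton.elim x 0]
    exact h1
  · rw [Subsingleton.elim x 0]
    exact h2
  · refine Fin.cases ?_ (fun i => ?_) x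
    · exact h3
    · rw [Subsingleton.elim i 0]
      exact h4

/-- The inclusion of the surface with one puncture less. -/
def ist : FG 1 1 →* FG 1 2 := FreeGroup.lift (Sum.elim (fun c => FreeGroup.of (Sum.inl c))
  fun _ => xg 0 * xg 1 * (xg 0)⁻¹)

theorem ist_a : ist (ga 1) = ga 2 := by simp [ist]

theorem ist_b : ist (gb 1) = gb 2 := by simp [ist]

theorem ist_x : ist (xg 0) = xg 0 * xg 1 * (xg 0)⁻¹ := by simp [ist]

/-- The retraction. -/
def rst : FG 1 2 →* FG 1 1 := FreeGroup.lift (Sum.elim (fun c => FreeGroup.of (Sum.inl c))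
  (Fin.cases 1 fun _ => xg 0))

theorem rst_ist (z : FG 1 1) : rst (ist z) = z := by
  have h1 : rst.comp ist = MonoidHom.id _ := by
    apply hom_ext1
    · rw [MonoidHom.comp_apply, ist_a]
      simp [rst]
    · rw [MonoidHom.comp_apply, ist_b]
      simp [rst]
    · rw [MonoidHom.comp_apply, ist_x]
      have h2 : rst (xg 0) = 1 := by simp [rst]
      have h3 : rst (xg 1) = xg 0 := by
        rw [rst, FreeGroup.lift_apply_of]
        rfl
      rw [map_mul, map_mul, map_inv, h2, h3]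
      simp
  exact DFunLike.congr_fun h1 z

/-- The extension of an endomorphism. -/
def ext2 (g : FG 1 1 →* FG 1 1) : FG 1 2 →* FG 1 2 :=
  FreeGroup.lift (Sum.elim (fun c => ist (g (FreeGroup.of (Sum.inl c))))
    (Fin.cases (xg 0) fun _ => (xg 0)⁻¹ * ist (g (xg 0)) * xg 0))

theorem ext2_a (g : FG 1 1 →* FG 1 1) : ext2 g (ga 2) = ist (g (ga 1)) := by simp [ext2]

theorem ext2_b (g : FG 1 1 →* FG 1 1) : ext2 g (gb 2) = ist (g (gb 1)) := by simp [ext2]

theorem ext2_x0 (g : FG 1 1 →* FG 1 1) : ext2 g (xg 0) = xg 0 := by simp [ext2]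

theorem ext2_x1 (g : FG 1 1 →* FG 1 1) : ext2 g (xg 1) = (xg 0)⁻¹ * ist (g (xg 0)) * xg 0 := by
  rw [ext2, FreeGroup.lift_apply_of]
  rfl

theorem ext2_ist (g : FG 1 1 →* FG 1 1) (z : FG 1 1) : ext2 g (ist z) = ist (g z) := by
  have h1 : (ext2 g).comp ist = ist.comp g := by
    apply hom_ext1
    · rw [MonoidHom.comp_apply, ist_a, ext2_a, MonoidHom.comp_apply]
    · rw [MonoidHom.comp_apply, ist_b, ext2_b, MonoidHom.comp_apply]
    · rw [MonoidHom.comp_apply, ist_x, map_mul, map_mul, map_inv, ext2_x0, ext2_x1,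
        MonoidHom.comp_apply]
      group
  exact DFunLike.congr_fun h1 z

theorem ext2_comp (g g' : FG 1 1 →* FG 1 1) (hg : g.comp g' = MonoidHom.id _) (z : FG 1 2) :
    ext2 g (ext2 g' z) = z := by
  have hg1 : ∀ z, g (g' z) = z := fun z => DFunLike.congr_fun hg z
  have h1 : (ext2 g).comp (ext2 g') = MonoidHom.id _ := by
    apply hom_ext2
    · rw [MonoidHom.comp_apply, ext2_a, ext2_ist, hg1, ist_a, MonoidHom.id_apply]
    · rw [MonoidHom.comp_apply, ext2_b, ext2_ist, hg1, ist_b, MonoidHom.id_apply]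
    · rw [MonoidHom.comp_apply, ext2_x0, ext2_x0, MonoidHom.id_apply]
    · rw [MonoidHom.comp_apply, ext2_x1, map_mul, map_mul, map_inv, ext2_x0, ext2_ist, hg1,
        ist_x, MonoidHom.id_apply]
      group
  exact DFunLike.congr_fun h1 z

/-- The extension of an automorphism. -/
def extA (p : MulAut (FG 1 1)) : MulAut (FG 1 2) :=
  MulEquiv.mk' ⟨ext2 p.toMonoidHom, ext2 (p⁻¹ : MulAut (FG 1 1)).toMonoidHom,
    fun z => ext2_comp _ _ (by
      ext1 x
      change p⁻¹ (p _) = _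
      rw [← MulAut.mul_apply, inv_mul_cancel]
      rfl) z,
    fun z => ext2_comp _ _ (by
      ext1 x
      change p (p⁻¹ _) = _
      rw [← MulAut.mul_apply, mul_inv_cancel]
      rfl) z⟩ fun x y => map_mul (ext2 p.toMonoidHom) x y

theorem extA_apply (p : MulAut (FG 1 1)) (z : FG 1 2) : extA p z = ext2 p.toMonoidHom z := rfl

theorem extA_ist (p : MulAut (FG 1 1)) (z : FG 1 1) : extA p (ist z) = ist (p z) :=
  ext2_ist p.toMonoidHom z

theorem extA_x0 (p : MulAut (FG 1 1)) : extA p (xg 0) = xg 0 :=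
  ext2_x0 p.toMonoidHom

theorem ist_c : ist (cW 1 1) * xg 0 = cW 1 2 := by
  rw [cW11, cW12, map_mul, map_mul, map_mul, map_mul, map_inv, map_inv, ist_a, ist_b, ist_x]
  group

theorem kp_ist (z : FG 1 1) : kp 1 1 (ist z) = io 1 0 (kp 1 0 z) := by
  have h1 : (kp 1 1).comp ist = (io 1 0).comp (kp 1 0) := by
    have e1 : kp 1 0 (xg 0) = 1 := kp_last (h := 1) (n := 0)
    have e2 : kp 1 1 (xg 1) = 1 := kp_last (h := 1) (n := 1)
    apply hom_ext1
    · rw [MonoidHom.comp_apply, MonoidHom.comp_apply, ist_a, kp_inl, kp_inl, io_inl]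
    · rw [MonoidHom.comp_apply, MonoidHom.comp_apply, ist_b, kp_inl, kp_inl, io_inl]
    · rw [MonoidHom.comp_apply, MonoidHom.comp_apply, ist_x, e1, map_one, map_mul, map_mul,
        e2, map_inv, mul_one, mul_inv_cancel]
  exact DFunLike.congr_fun h1 z

/-- The Birman injectivity for the torus with one puncture and one boundary component. -/
theorem birman_one (p : MulAut (FG 1 1)) (hp : p ∈ CPf 1 1)
    (hk : ∀ z, kp 1 0 (p z) = kp 1 0 z) (w : FG 1 1)
    (hw : p (xg 0) = w * xg 0 * w⁻¹) (hw1 : kp 1 0 w = 1) : p = 1 := by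
  have hx1 : extA p (xg 1) = ((xg 0)⁻¹ * ist w * xg 0) * xg 1 * ((xg 0)⁻¹ * ist w * xg 0)⁻¹ := by
    rw [extA_apply, ext2_x1]
    change (xg 0)⁻¹ * ist (p (xg 0)) * xg 0 = _
    rw [hw, map_mul, map_mul, map_inv, ist_x]
    group
  have hc : extA p (cW 1 2) = cW 1 2 := by
    have h1 : p (cW 1 1) = cW 1 1 := by
      have h2 := hp.2
      rw [xn, map_inv] at h2
      exact inv_injective h2
    rw [← ist_c, map_mul, extA_ist, h1, extA_x0]
  have hxn : extA p (xn 1 2) = xn 1 2 := by rw [xn, map_inv, hc]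
  have h1 : extA p = 1 := by
    refine birman_big (h := 1) (n := 1) le_rfl le_rfl (extA p) ⟨?_, hxn⟩ ?_
      ((xg 0)⁻¹ * ist w * xg 0) hx1 ?_
    · intro j
      refine Fin.lastCases ?_ (fun i => ?_) j
      · exact ⟨1, by rw [per_last, hxn]; group⟩
      · rw [per_castSucc]
        refine Fin.cases ?_ (fun i => ?_) i
        · exact ⟨1, by rw [extA_x0]; group⟩
        · rw [Subsingleton.elim i 0]
          exact ⟨_, hx1⟩
    · have h2 : (kp 1 1).comp (extA p).toMonoidHom = kp 1 1 := by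
        have h3 : ∀ z, kp 1 1 (extA p (ist z)) = kp 1 1 (ist z) := fun z => by
          rw [extA_ist, kp_ist, kp_ist, hk]
        apply hom_ext2
        · rw [← ist_a]
          exact h3 _
        · rw [← ist_b]
          exact h3 _
        · change kp 1 1 (extA p (xg 0)) = _
          rw [extA_x0]
        · have e2 : (xg 1 : FG 1 2) = (xg 0)⁻¹ * ist (xg 0) * xg 0 := by
            rw [ist_x]
            group
          change kp 1 1 (extA p (xg 1)) = kp 1 1 (xg 1)
          rw [e2]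
          simp only [map_mul, map_inv, extA_x0, h3]
      exact fun z => DFunLike.congr_fun h2 z
    · rw [map_mul, map_mul, kp_ist, hw1, map_one, mul_one, ← map_mul, inv_mul_cancel, map_one]
  ext1 z
  have h2 : extA p (ist z) = ist z := by rw [h1, MulAut.one_apply]
  rw [extA_ist] at h2
  have h3 := congrArg rst h2
  rwa [rst_ist, rst_ist] at h3

end Pool.MP_59b15d_al.H95H
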