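import Pool.Agent.H.MP_59b15d_al.h95h.Bi1
import Pool.Agent.H.MP_59b15d_al.h76m.He
import Pool.Agent.H.MP_59b15d_al.h76r.Sd

/-!
# The centraliser of the boundary
-/

set_option autoImplicit false

namespace Pool.MP_59b15d_al.H95H

open Pool.MP_59b15d_al.Sym (Gg cW)
open Pool.MP_59b15d_al.SymH
open Pool.MP_59b15d_al.H76 (Heis)

variable {h N : ℕ}

/-- The boundary in the Heisenberg group. -/
theorem heis_xn (hh : 1 ≤ h) : ∃ φ : FG h N →* Heis ℤ, φ (xn h N) = ⟨0, 0, -1⟩ := by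
  obtain ⟨h', rfl⟩ : ∃ h', h = h' + 1 := ⟨h - 1, by omega⟩
  let g : (Fin (h' + 1) ⊕ Fin (h' + 1)) ⊕ Fin N → Heis ℤ
    | Sum.inl (Sum.inl i) => if i = 0 then ⟨1, 0, 0⟩ else 1
    | Sum.inl (Sum.inr i) => if i = 0 then ⟨0, 1, 0⟩ else 1
    | Sum.inr _ => 1
  let φ : FG (h' + 1) N →* Heis ℤ := FreeGroup.lift g
  refine ⟨φ, ?_⟩
  have hc : φ (cW (h' + 1) N) = ⟨0, 0, 1⟩ := by
    rw [cW, map_mul, map_list_prod, map_list_prod, List.map_ofFn, List.map_ofFn]
    have e2 : (List.ofFn (⇑φ ∘ fun i : Fin N =>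
        (FreeGroup.of (Sum.inr i) : FG (h' + 1) N))).prod = 1 := by
      apply List.prod_eq_one
      intro x hx
      rw [List.mem_ofFn] at hx
      obtain ⟨i, rfl⟩ := hx
      simp [φ, g]
    rw [e2, mul_one, List.ofFn_succ, List.prod_cons]
    have e3 : (List.ofFn fun i : Fin h' => (⇑φ ∘ fun i : Fin (h' + 1) =>
        (FreeGroup.of (Sum.inl (Sum.inl i)) : FG (h' + 1) N) * FreeGroup.of (Sum.inl (Sum.inr i)) *
        (FreeGroup.of (Sum.inl (Sum.inl i)))⁻¹ * (FreeGroup.of (Sum.inl (Sum.inr i)))⁻¹)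
        i.succ).prod = 1 := by
      apply List.prod_eq_one
      intro x hx
      rw [List.mem_ofFn] at hx
      obtain ⟨i, rfl⟩ := hx
      simp [φ, g]
    rw [e3, mul_one]
    simp only [Function.comp_apply, map_mul, map_inv, φ, FreeGroup.lift_apply_of, g, if_true]
    ext <;> simp
  rw [xn, map_inv, hc]
  ext <;> simp

/-- The centraliser of the boundary. -/
theorem cent_xn (hh : 1 ≤ h) (v : FG h N) (hv : v * xn h N = xn h N * v) :
    ∃ a : ℤ, v = xn h N ^ a := by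
  obtain ⟨y, b, c, hb, hc⟩ := Pool.MP_59b15d_al.H76.commute_cyclic v (xn h N) hv
  obtain ⟨φ, hφ⟩ := heis_xn (h := h) (N := N) hh
  rw [hc, map_zpow] at hφ
  have h1 := congrArg Heis.x hφ
  have h2 := congrArg Heis.y hφ
  rw [Pool.MP_59b15d_al.H76.Heis.zpow_x] at h1
  rw [Pool.MP_59b15d_al.H76.Heis.zpow_y] at h2
  have hc0 : c ≠ 0 := by
    rintro rfl
    rw [zpow_zero] at hφ
    have h3 := congrArg Heis.z hφ
    simp at h3
  have h3 : (φ y).x = 0 := by
    rcases mul_eq_zero.1 h1 with h4 | h4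
    · exact absurd (by exact_mod_cast h4) hc0
    · exact h4
  have h4 : (φ y).y = 0 := by
    rcases mul_eq_zero.1 h2 with h5 | h5
    · exact absurd (by exact_mod_cast h5) hc0
    · exact h5
  rw [Pool.MP_59b15d_al.H76.Heis.zpow_central _ h3 h4] at hφ
  have h5 := congrArg Heis.z hφ
  have h6 : c * (φ y).z = -1 := by exact_mod_cast h5
  have h7 : c = 1 ∨ c = -1 := by
    have h8 : c * -(φ y).z = 1 := by linarith
    exact Int.eq_one_or_neg_one_of_mul_eq_one h8
  rcases h7 with rfl | rfl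
  · exact ⟨b, by rw [hc, zpow_one, hb]⟩
  · refine ⟨-b, ?_⟩
    rw [hc, ← zpow_mul, neg_mul_neg, one_mul, hb]

/-- The order of the boundary modulo a characteristic subgroup. -/
theorem exists_order_char (hh : 1 ≤ h) (M : ℕ) (hM : 0 < M) : ∃ V : Subgroup (FG h N),
    V.Characteristic ∧ V.FiniteIndex ∧ ∀ k : ℤ, xn h N ^ k ∈ V → (M : ℤ) ∣ k := by
  obtain ⟨V, -, hVf, hV⟩ := exists_order (n := N) hh M hM
  obtain ⟨V', h1, h2, h3⟩ := Pool.MP_59b15d_al.H76.exists_char_le V hVf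
  exact ⟨V', h1, h2, fun k hk => hV k (h3 hk)⟩

/-- Conjugations by a characteristic subgroup. -/
theorem conj_normal {G : Type*} [Group G] (V : Subgroup G) (hV : V.Characteristic) :
    (V.map (MulAut.conj : G →* MulAut G)).Normal := by
  constructor
  rintro _ ⟨v, hv, rfl⟩ f
  refine ⟨f v, Pool.MP_59b15d_al.H76.apply_mem_of_char hV f hv, ?_⟩
  ext z
  rw [MulAut.mul_apply, MulAut.mul_apply, MulAut.conj_apply, MulAut.conj_apply, map_mul, map_mul,
    map_inv, MulAut.apply_inv_self]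

/-- Adding a normal subgroup. -/
theorem relIndex_sup_ne {G : Type*} [Group G] (A B K : Subgroup G) (hK : K.Normal)
    (hAB : A.relIndex B ≠ 0) : (A ⊔ K).relIndex (B ⊔ K) ≠ 0 := by
  have h1 := Pool.MP_59b15d_al.H76.map_relIndex_ne (QuotientGroup.mk' K) A B hAB
  have h2 : ∀ C : Subgroup G, C ⊔ K = (C.map (QuotientGroup.mk' K)).comap (QuotientGroup.mk' K) := by
    intro C
    rw [Subgroup.comap_map_eq, QuotientGroup.ker_mk']
  rw [h2 A, h2 B, Subgroup.relIndex_comap, Subgroup.map_comap_eq_self_of_surjective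
    (QuotientGroup.mk'_surjective K)]
  exact h1

end Pool.MP_59b15d_al.H95H
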