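import Pool.Agent.H.MP_59b15d_al.h95.Mf3
import Pool.Agent.H.MP_59b15d_al.symh.Defs

/-!
# The spokes and the handle edges

`FreeGroup (X h N × A)` is the free group on the edges: the spoke `(inr j, a)` goes from the vertex
`a` to the centre of the coset `a ⟨x_j⟩`, the handle edge `(inl c, a)` goes from `a` to `a * α c`.
-/

set_option autoImplicit false

namespace Pool.MP_59b15d_al.H95H

open Pool.MP_59b15d_al.H95 (Wr Wr.mul_f Wr.mul_q Wr.one_f Wr.one_q Wr.inv_f Wr.inv_q vl vl_nil
  vl_cons vl_append vl_map)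
open Pool.MP_59b15d_al.Sym (Gg cW)

/-- The generators. -/
abbrev X (h N : ℕ) : Type := (Fin h ⊕ Fin h) ⊕ Fin N

/-- The positions of the relation word `∏ [a_i, b_i] ∏ x_j`. -/
abbrev Y (h N : ℕ) : Type := (Fin h × Fin 4) ⊕ Fin N

section Th

variable {h N : ℕ} {A : Type*} [Group A]

/-- The path of a generator. -/
def thg (α : X h N → A) : X h N → A → FreeGroup (X h N × A)
  | Sum.inl c, a => FreeGroup.of (Sum.inl c, a)
  | Sum.inr j, a => FreeGroup.of (Sum.inr j, a) * (FreeGroup.of (Sum.inr j, a * α (Sum.inr j)))⁻¹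

/-- The universal cocycle. -/
def thH (α : X h N → A) : FreeGroup (X h N) →* Wr A (FreeGroup (X h N × A)) :=
  FreeGroup.lift fun x => ⟨thg α x, α x⟩

/-- The element of the path `w` starting at `a`. -/
def Th (α : X h N → A) (a : A) (w : FreeGroup (X h N)) : FreeGroup (X h N × A) := (thH α w).f a

theorem thH_q (α : X h N → A) (w : FreeGroup (X h N)) : (thH α w).q = FreeGroup.lift α w := by
  induction w using FreeGroup.induction_on with
  | C1 => rw [map_one, map_one]; rfl
  | of j => simp [thH]
  | inv_of j _ => rw [map_inv, map_inv, Wr.inv_q]; simp [thH]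
  | mul x y hx hy => rw [map_mul, map_mul, Wr.mul_q, hx, hy]

theorem Th_mul (α : X h N → A) (a : A) (u v : FreeGroup (X h N)) :
    Th α a (u * v) = Th α a u * Th α (a * FreeGroup.lift α u) v := by
  unfold Th
  rw [map_mul, Wr.mul_f, thH_q]

theorem Th_one (α : X h N → A) (a : A) : Th α a 1 = 1 := by
  unfold Th
  rw [map_one, Wr.one_f]

theorem Th_inv (α : X h N → A) (a : A) (u : FreeGroup (X h N)) :
    Th α a u⁻¹ = (Th α (a * (FreeGroup.lift α u)⁻¹) u)⁻¹ := by
  unfold Th
  rw [map_inv, Wr.inv_f, thH_q]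

theorem Th_of (α : X h N → A) (a : A) (x : X h N) : Th α a (FreeGroup.of x) = thg α x a := by
  simp [Th, thH]

theorem Th_inl (α : X h N → A) (a : A) (c : Fin h ⊕ Fin h) :
    Th α a (FreeGroup.of (Sum.inl c)) = FreeGroup.of (Sum.inl c, a) := Th_of α a _

theorem Th_inr (α : X h N → A) (a : A) (j : Fin N) :
    Th α a (FreeGroup.of (Sum.inr j)) =
      FreeGroup.of (Sum.inr j, a) * (FreeGroup.of (Sum.inr j, a * α (Sum.inr j)))⁻¹ := Th_of α a _

/-- The letter of a position. -/
def yv : Y h N → FreeGroup (X h N)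
  | Sum.inl (i, 0) => FreeGroup.of (Sum.inl (Sum.inl i))
  | Sum.inl (i, 1) => FreeGroup.of (Sum.inl (Sum.inr i))
  | Sum.inl (i, 2) => (FreeGroup.of (Sum.inl (Sum.inl i)))⁻¹
  | Sum.inl (i, 3) => (FreeGroup.of (Sum.inl (Sum.inr i)))⁻¹
  | Sum.inr j => FreeGroup.of (Sum.inr j)

/-- The partner of a position. -/
def pi (y : Y h N) : Y h N :=
  match y with
  | Sum.inl (i, 0) => Sum.inl (i, 2)
  | Sum.inl (i, 1) => Sum.inl (i, 3)
  | Sum.inl (i, 2) => Sum.inl (i, 0)
  | Sum.inl (i, 3) => Sum.inl (i, 1)
  | Sum.inr j => Sum.inr j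

/-- The displacement of a position. -/
def dl (α : X h N → A) (y : Y h N) : A := FreeGroup.lift α (yv y)

/-- The darts of a position. -/
def dd (α : X h N → A) (y : Y h N) (a : A) : List (X h N × A × Bool) :=
  match y with
  | Sum.inl (i, 0) => [(Sum.inl (Sum.inl i), a, true)]
  | Sum.inl (i, 1) => [(Sum.inl (Sum.inr i), a, true)]
  | Sum.inl (i, 2) => [(Sum.inl (Sum.inl i), a * (α (Sum.inl (Sum.inl i)))⁻¹, false)]
  | Sum.inl (i, 3) => [(Sum.inl (Sum.inr i), a * (α (Sum.inl (Sum.inr i)))⁻¹, false)]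
  | Sum.inr j => [(Sum.inr j, a, true), (Sum.inr j, a * α (Sum.inr j), false)]

/-- The first dart of a position. -/
def hd (α : X h N → A) (y : Y h N) (a : A) : X h N × A × Bool :=
  match y with
  | Sum.inl (i, 0) => (Sum.inl (Sum.inl i), a, true)
  | Sum.inl (i, 1) => (Sum.inl (Sum.inr i), a, true)
  | Sum.inl (i, 2) => (Sum.inl (Sum.inl i), a * (α (Sum.inl (Sum.inl i)))⁻¹, false)
  | Sum.inl (i, 3) => (Sum.inl (Sum.inr i), a * (α (Sum.inl (Sum.inr i)))⁻¹, false)
  | Sum.inr j => (Sum.inr j, a, true)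

/-- The flip. -/
def fl (p : X h N × A × Bool) : X h N × A × Bool := (p.1, p.2.1, !p.2.2)

/-- The values of the darts. -/
def ep : X h N × A × Bool → FreeGroup (X h N × A)
  | (x, a, true) => FreeGroup.of (x, a)
  | (x, a, false) => (FreeGroup.of (x, a))⁻¹

/-- The number of darts of a position. -/
def yn : Y h N → ℕ
  | Sum.inl _ => 1
  | Sum.inr _ => 2

/-- Cases for the positions. -/
theorem Y_cases {P : Y h N → Prop} (h0 : ∀ i, P (Sum.inl (i, 0))) (h1 : ∀ i, P (Sum.inl (i, 1)))
    (h2 : ∀ i, P (Sum.inl (i, 2))) (h3 : ∀ i, P (Sum.inl (i, 3))) (h4 : ∀ j, P (Sum.inr j))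
    (y : Y h N) : P y := by
  rcases y with ⟨i, t⟩ | j
  · fin_cases t
    · exact h0 i
    · exact h1 i
    · exact h2 i
    · exact h3 i
  · exact h4 j

theorem dd_length (α : X h N → A) (y : Y h N) (a : A) : (dd α y a).length = yn y := by
  revert y
  apply Y_cases <;> intro i <;> rfl

theorem hd_mem (α : X h N → A) (y : Y h N) (a : A) : hd α y a ∈ dd α y a := by
  revert y
  apply Y_cases <;> intro i <;> exact List.mem_cons_self

/-- The flip of the last dart of `y` is the first dart of `pi y`. -/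
theorem exists_last (α : X h N → A) (y : Y h N) (a : A) : ∃ p ∈ dd α y a,
    fl p = hd α (pi y) (a * dl α y) ∧ (dd α y a).getLast? = some p := by
  revert y
  apply Y_cases <;> intro i
  · refine ⟨(Sum.inl (Sum.inl i), a, true), List.mem_cons_self, ?_, rfl⟩
    change ((Sum.inl (Sum.inl i), a, false) : X h N × A × Bool) =
      (Sum.inl (Sum.inl i), a * dl α (Sum.inl (i, 0)) * (α (Sum.inl (Sum.inl i)))⁻¹, false)
    have e : dl α (Sum.inl (i, 0)) = α (Sum.inl (Sum.inl i)) := by simp [dl, yv]
    rw [e, mul_inv_cancel_right]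
  · refine ⟨(Sum.inl (Sum.inr i), a, true), List.mem_cons_self, ?_, rfl⟩
    change ((Sum.inl (Sum.inr i), a, false) : X h N × A × Bool) =
      (Sum.inl (Sum.inr i), a * dl α (Sum.inl (i, 1)) * (α (Sum.inl (Sum.inr i)))⁻¹, false)
    have e : dl α (Sum.inl (i, 1)) = α (Sum.inl (Sum.inr i)) := by simp [dl, yv]
    rw [e, mul_inv_cancel_right]
  · refine ⟨_, List.mem_cons_self, ?_, rfl⟩
    change ((Sum.inl (Sum.inl i), a * (α (Sum.inl (Sum.inl i)))⁻¹, true) : X h N × A × Bool) =
      (Sum.inl (Sum.inl i), a * dl α (Sum.inl (i, 2)), true)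
    have e : dl α (Sum.inl (i, 2)) = (α (Sum.inl (Sum.inl i)))⁻¹ := by simp [dl, yv]
    rw [e]
  · refine ⟨_, List.mem_cons_self, ?_, rfl⟩
    change ((Sum.inl (Sum.inr i), a * (α (Sum.inl (Sum.inr i)))⁻¹, true) : X h N × A × Bool) =
      (Sum.inl (Sum.inr i), a * dl α (Sum.inl (i, 3)), true)
    have e : dl α (Sum.inl (i, 3)) = (α (Sum.inl (Sum.inr i)))⁻¹ := by simp [dl, yv]
    rw [e]
  · refine ⟨(Sum.inr i, a * α (Sum.inr i), false), by simp [dd], ?_, rfl⟩
    change ((Sum.inr i, a * α (Sum.inr i), true) : X h N × A × Bool) =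
      (Sum.inr i, a * dl α (Sum.inr i), true)
    have e : dl α (Sum.inr i : Y h N) = α (Sum.inr i) := by simp [dl, yv]
    rw [e]

theorem vl_dd (α : X h N → A) (y : Y h N) (a : A) : vl ep (dd α y a) = Th α a (yv y) := by
  revert y
  apply Y_cases <;> intro i
  · change vl ep [((Sum.inl (Sum.inl i), a, true) : X h N × A × Bool)] =
      Th α a (FreeGroup.of (Sum.inl (Sum.inl i)))
    rw [Th_inl, vl_cons, vl_nil, mul_one]
    rfl
  · change vl ep [((Sum.inl (Sum.inr i), a, true) : X h N × A × Bool)] =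
      Th α a (FreeGroup.of (Sum.inl (Sum.inr i)))
    rw [Th_inl, vl_cons, vl_nil, mul_one]
    rfl
  · change vl ep [((Sum.inl (Sum.inl i), a * (α (Sum.inl (Sum.inl i)))⁻¹, false) :
      X h N × A × Bool)] = Th α a (FreeGroup.of (Sum.inl (Sum.inl i)))⁻¹
    rw [Th_inv, FreeGroup.lift_apply_of, Th_inl, vl_cons, vl_nil, mul_one]
    rfl
  · change vl ep [((Sum.inl (Sum.inr i), a * (α (Sum.inl (Sum.inr i)))⁻¹, false) :
      X h N × A × Bool)] = Th α a (FreeGroup.of (Sum.inl (Sum.inr i)))⁻¹
    rw [Th_inv, FreeGroup.lift_apply_of, Th_inl, vl_cons, vl_nil, mul_one]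
    rfl
  · change vl ep [((Sum.inr i, a, true) : X h N × A × Bool), (Sum.inr i, a * α (Sum.inr i), false)]
      = Th α a (FreeGroup.of (Sum.inr i))
    rw [Th_inr, vl_cons, vl_cons, vl_nil, mul_one]
    rfl

/-- Every dart belongs to a position. -/
theorem dart_pos (α : X h N → A) (p : X h N × A × Bool) : ∃ y a, p ∈ dd α y a := by
  obtain ⟨x, a, b⟩ := p
  rcases x with (i | i) | j <;> cases b
  · refine ⟨Sum.inl (i, 2), a * α (Sum.inl (Sum.inl i)), ?_⟩
    change _ ∈ [((Sum.inl (Sum.inl i), a * α (Sum.inl (Sum.inl i)) *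
      (α (Sum.inl (Sum.inl i)))⁻¹, false) : X h N × A × Bool)]
    rw [mul_inv_cancel_right]
    exact List.mem_cons_self
  · exact ⟨Sum.inl (i, 0), a, List.mem_cons_self⟩
  · refine ⟨Sum.inl (i, 3), a * α (Sum.inl (Sum.inr i)), ?_⟩
    change _ ∈ [((Sum.inl (Sum.inr i), a * α (Sum.inl (Sum.inr i)) *
      (α (Sum.inl (Sum.inr i)))⁻¹, false) : X h N × A × Bool)]
    rw [mul_inv_cancel_right]
    exact List.mem_cons_self
  · exact ⟨Sum.inl (i, 1), a, List.mem_cons_self⟩
  · refine ⟨Sum.inr j, a * (α (Sum.inr j))⁻¹, ?_⟩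
    change _ ∈ [((Sum.inr j, a * (α (Sum.inr j))⁻¹, true) : X h N × A × Bool),
      (Sum.inr j, a * (α (Sum.inr j))⁻¹ * α (Sum.inr j), false)]
    rw [inv_mul_cancel_right]
    exact List.mem_cons_of_mem _ List.mem_cons_self
  · exact ⟨Sum.inr j, a, List.mem_cons_self⟩

/-- The walk of a word. -/
def wd (α : X h N → A) : A → List (Y h N) → List (X h N × A × Bool)
  | _, [] => []
  | a, y :: w => dd α y a ++ wd α (a * dl α y) w

theorem wd_append (α : X h N → A) (w w' : List (Y h N)) : ∀ a : A,
    wd α a (w ++ w') = wd α a w ++ wd α (a * (w.map (dl α)).prod) w' := by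
  induction w with
  | nil => intro a; simp [wd]
  | cons j w ih =>
    intro a
    rw [List.cons_append, wd, wd, ih, List.map_cons, List.prod_cons, ← mul_assoc,
      List.append_assoc]

theorem wd_length (α : X h N → A) (w : List (Y h N)) : ∀ a : A,
    (wd α a w).length = (w.map yn).sum := by
  induction w with
  | nil => intro a; simp [wd]
  | cons j w ih =>
    intro a
    rw [wd, List.length_append, ih, dd_length, List.map_cons, List.sum_cons]

theorem lift_prod (α : X h N → A) (w : List (Y h N)) :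
    FreeGroup.lift α (w.map yv).prod = (w.map (dl α)).prod := by
  rw [map_list_prod, List.map_map]
  rfl

theorem vl_wd (α : X h N → A) (w : List (Y h N)) : ∀ a : A,
    vl ep (wd α a w) = Th α a (w.map yv).prod := by
  induction w with
  | nil => intro a; rw [List.map_nil, List.prod_nil, Th_one]; rfl
  | cons j w ih =>
    intro a
    rw [wd, vl_append, ih, List.map_cons, List.prod_cons, Th_mul, vl_dd]
    rfl

theorem mem_wd (α : X h N → A) (a : A) (w₁ w₂ : List (Y h N)) (y : Y h N)
    {p : X h N × A × Bool} (hp : p ∈ dd α y (a * (w₁.map (dl α)).prod)) :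
    p ∈ wd α a (w₁ ++ y :: w₂) := by
  rw [wd_append, wd]
  exact List.mem_append_right _ (List.mem_append_left _ hp)

/-! ### The relation word -/

/-- The positions in their order. -/
def yl (h N : ℕ) : List (Y h N) :=
  ((List.finRange h).flatMap fun i =>
    [Sum.inl (i, 0), Sum.inl (i, 1), Sum.inl (i, 2), Sum.inl (i, 3)]) ++
  (List.finRange N).map Sum.inr

theorem mem_yl (y : Y h N) : y ∈ yl h N := by
  unfold yl
  rw [List.mem_append, List.mem_flatMap, List.mem_map]
  revert y
  apply Y_cases <;> intro i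
  · exact Or.inl ⟨i, List.mem_finRange i, by simp⟩
  · exact Or.inl ⟨i, List.mem_finRange i, by simp⟩
  · exact Or.inl ⟨i, List.mem_finRange i, by simp⟩
  · exact Or.inl ⟨i, List.mem_finRange i, by simp⟩
  · exact Or.inr ⟨i, List.mem_finRange i, rfl⟩

theorem nodup_yl (h N : ℕ) : (yl h N).Nodup := by
  unfold yl
  rw [List.nodup_append]
  refine ⟨?_, (List.nodup_finRange N).map Sum.inr_injective, ?_⟩
  · rw [List.nodup_flatMap]
    constructor
    · intro i _
      simp
    · refine (List.nodup_finRange h).pairwise_of_forall_ne ?_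
      intro i _ j _ hij x hx hx'
      simp only [List.mem_cons, List.not_mem_nil, or_false] at hx hx'
      rcases hx with rfl | rfl | rfl | rfl <;> simp [hij] at hx'
  · intro a ha b hb hab
    subst hab
    rw [List.mem_flatMap] at ha
    rw [List.mem_map] at hb
    obtain ⟨i, -, hi⟩ := ha
    obtain ⟨j, -, rfl⟩ := hb
    simp at hi

theorem yl_prod (h N : ℕ) : ((yl h N).map yv).prod = cW h N := by
  unfold yl cW
  rw [List.map_append, List.prod_append, List.map_map]
  congr 1
  · rw [List.map_flatMap, List.ofFn_eq_map]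
    induction List.finRange h with
    | nil => simp
    | cons i l ih =>
      rw [List.flatMap_cons, List.prod_append, ih, List.map_cons, List.prod_cons]
      congr 1
  · rw [List.ofFn_eq_map]
    rfl

theorem yl_count (h N : ℕ) : ((yl h N).map yn).sum = 2 * (2 * h + N) := by
  unfold yl
  rw [List.map_append, List.sum_append, List.map_map, List.map_flatMap]
  have e1 : ((List.finRange h).flatMap fun i =>
      List.map yn [(Sum.inl (i, 0) : Y h N), Sum.inl (i, 1), Sum.inl (i, 2), Sum.inl (i, 3)]).sum =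
      4 * h := by
    have e3 : ∀ l : List (Fin h), (l.flatMap fun i =>
      List.map yn [(Sum.inl (i, 0) : Y h N), Sum.inl (i, 1), Sum.inl (i, 2), Sum.inl (i, 3)]).sum =
      4 * l.length := by
      intro l
      induction l with
      | nil => simp
      | cons i l ih =>
        rw [List.flatMap_cons, List.sum_append, ih, List.length_cons]
        simp [yn]
        ring
    rw [e3, List.length_finRange]
  have e2 : (List.map (yn ∘ (Sum.inr : Fin N → Y h N)) (List.finRange N)).sum = 2 * N := by
    have e3 : ∀ l : List (Fin N), (List.map (yn ∘ (Sum.inr : Fin N → Y h N)) l).sum =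
      2 * l.length := by
      intro l
      induction l with
      | nil => simp
      | cons i l ih =>
        rw [List.map_cons, List.sum_cons, ih, List.length_cons]
        simp [yn]
        ring
    rw [e3, List.length_finRange]
  rw [e1, e2]
  ring

theorem isChain_of {r : Y h N → Y h N → Prop} : ∀ l : List (Y h N),
    (∀ w₁ y y' w₂, l = w₁ ++ y :: y' :: w₂ → r y y') → l.IsChain r := by
  intro l
  induction l with
  | nil => exact fun _ => List.IsChain.nil
  | cons a l ih =>
    intro hl
    cases l with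
    | nil => exact List.IsChain.singleton _
    | cons b l =>
      rw [List.isChain_cons_cons]
      refine ⟨hl [] a b l rfl, ih fun w₁ y y' w₂ hw => hl (a :: w₁) y y' w₂ ?_⟩
      rw [hw, List.cons_append]

/-- The positions around a vertex are connected. -/
theorem chainY {Q : Type*} (R : Q → Q → Prop) (hr : ∀ u, R u u)
    (ht : ∀ u v w, R u v → R v w → R u w) (f : Y h N → Q)
    (hR : ∀ w₁ y y' w₂, yl h N = w₁ ++ y :: y' :: w₂ → R (f y') (f (pi y))) (y₀ : Y h N)
    (w₀ : List (Y h N)) (hw₀ : yl h N = y₀ :: w₀) (y : Y h N) : R (f y) (f y₀) := by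
  have key1 : ∀ (q : Q) (l : List (Fin N)),
      (l.map (Sum.inr : Fin N → Y h N)).IsChain (fun y y' => R (f y') (f (pi y))) →
      (∀ y ∈ (l.map (Sum.inr : Fin N → Y h N)).head?, R (f y) q) →
      ∀ y ∈ l.map (Sum.inr : Fin N → Y h N), R (f y) q := by
    intro q l
    induction l with
    | nil => intro _ _ y hy; simp at hy
    | cons j l ih =>
      intro hc hh y hy
      rw [List.map_cons] at hc hh hy
      have h1 : R (f (Sum.inr j)) q := hh _ (by simp)
      rcases List.mem_cons.1 hy with rfl | hy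
      · exact h1
      · refine ih hc.tail ?_ y hy
        intro z hz
        cases l with
        | nil => simp at hz
        | cons j' l =>
          rw [List.map_cons] at hc hz
          rw [List.head?_cons, Option.mem_some_iff] at hz
          subst hz
          rw [List.isChain_cons_cons] at hc
          exact ht _ _ _ hc.1 h1
  have key2 : ∀ (q : Q) (ln : List (Fin N)) (l : List (Fin h)),
      ((l.flatMap fun i => [(Sum.inl (i, 0) : Y h N), Sum.inl (i, 1), Sum.inl (i, 2),
        Sum.inl (i, 3)]) ++ ln.map Sum.inr).IsChain (fun y y' => R (f y') (f (pi y))) →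
      (∀ y ∈ ((l.flatMap fun i => [(Sum.inl (i, 0) : Y h N), Sum.inl (i, 1), Sum.inl (i, 2),
        Sum.inl (i, 3)]) ++ ln.map Sum.inr).head?, R (f y) q) →
      ∀ y ∈ (l.flatMap fun i => [(Sum.inl (i, 0) : Y h N), Sum.inl (i, 1), Sum.inl (i, 2),
        Sum.inl (i, 3)]) ++ ln.map Sum.inr, R (f y) q := by
    intro q ln l
    induction l with
    | nil =>
      intro hc hh y hy
      rw [List.flatMap_nil, List.nil_append] at hc hh hy
      exact key1 q ln hc hh y hy
    | cons i l ih =>
      intro hc hh y hy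
      rw [List.flatMap_cons, List.append_assoc] at hc hh hy
      simp only [List.cons_append, List.nil_append] at hc hh hy
      set W := (l.flatMap fun i => [(Sum.inl (i, 0) : Y h N), Sum.inl (i, 1), Sum.inl (i, 2),
        Sum.inl (i, 3)]) ++ ln.map Sum.inr with hW
      rw [List.isChain_cons_cons, List.isChain_cons_cons, List.isChain_cons_cons] at hc
      obtain ⟨c1, c2, c3, c4⟩ := hc
      have r0 : R (f (Sum.inl (i, 0))) q := hh _ (by simp)
      have r3 : R (f (Sum.inl (i, 3))) q := ht _ _ _ c3 r0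
      have r2 : R (f (Sum.inl (i, 2))) q := ht _ _ _ c2 r3
      have r1 : R (f (Sum.inl (i, 1))) q := ht _ _ _ c1 r2
      simp only [List.mem_cons] at hy
      rcases hy with rfl | rfl | rfl | rfl | hy
      · exact r0
      · exact r1
      · exact r2
      · exact r3
      · refine ih c4.tail ?_ y hy
        intro z hz
        have c5 : R (f z) (f (pi (Sum.inl (i, 3)))) := by
          cases hWW : W with
          | nil => rw [hWW] at hz; simp at hz
          | cons z' W' =>
            rw [hWW, List.head?_cons, Option.mem_some_iff] at hz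
            subst hz
            rw [hWW, List.isChain_cons_cons] at c4
            exact c4.1
        exact ht _ _ _ c5 r1
  refine key2 (f y₀) (List.finRange N) (List.finRange h) (isChain_of _ hR) ?_ y (mem_yl y)
  intro z hz
  change z ∈ (yl h N).head? at hz
  rw [hw₀, List.head?_cons, Option.mem_some_iff] at hz
  subst hz
  exact hr _

end Th

end Pool.MP_59b15d_al.H95H
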