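import Pool.Agent.H.MP_59b15d_al.h95h.Mh3

/-!
# The system of faces
-/

set_option autoImplicit false

namespace Pool.MP_59b15d_al.H95H

open Pool.MP_59b15d_al.H95 (vl vl_nil vl_cons vl_append vl_map Sys pre pre_split pre_eq_of_split)

section sys

variable {h N s : ℕ} {A : Type*} [Group A]

/-- Darts and punctures. -/
abbrev Dt (h N s : ℕ) (A : Type*) : Type _ := (X h N × A × Bool) ⊕ Fin s

/-- The flip. -/
def sg : Dt h N s A → Dt h N s A
  | Sum.inl p => Sum.inl (fl p)
  | Sum.inr k => Sum.inr k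

/-- The word `(∏ [a_i, b_i] ∏ x_j) ^ m`. -/
def fw (h N m : ℕ) : List (Y h N) := (List.replicate m (yl h N)).flatten

/-- The face starting at `a`. -/
def fcl (s : ℕ) (α : X h N → A) (m : ℕ) (a : A) : List (Dt h N s A) :=
  (wd α a (fw h N m)).map Sum.inl

/-- The values of darts and punctures. -/
def vv (α : X h N → A) (m : ℕ) (g : Fin s → A) : Dt h N s A → FreeGroup (X h N × A)
  | Sum.inl p => ep p
  | Sum.inr k => (vl ep (wd α (g k) (fw h N m)))⁻¹

/-- The image of `∏ [a_i, b_i] ∏ x_j`. -/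
def cc (α : X h N → A) : A := ((yl h N).map (dl α)).prod

/-- The data of the faces. -/
structure Dat [Fintype A] (α : X h N → A) (m : ℕ) (g₀ : A) (g : Fin s → A) : Prop where
  hN : 0 < h + N
  gen : Subgroup.closure (Set.range α) = ⊤
  cov : ∀ a : A, (∃ t < m, a = g₀ * cc α ^ t) ∨ ∃ k, ∃ t < m, a = g k * cc α ^ t
  card : Fintype.card A = m * (s + 1)
  pm : cc α ^ m = 1

theorem fw_split {m t : ℕ} (ht : t < m) :
    fw h N m = fw h N t ++ (yl h N ++ fw h N (m - t - 1)) := by
  unfold fw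
  have h1 : m = t + (1 + (m - t - 1)) := by omega
  conv_lhs => rw [h1, List.replicate_add, List.replicate_add]
  rw [List.flatten_append, List.flatten_append]
  simp

theorem fw_succ (m : ℕ) : fw h N (m + 1) = fw h N m ++ yl h N := by
  rw [fw_split (Nat.lt_succ_self m)]
  simp [fw]

theorem fw_prod (α : X h N → A) (m : ℕ) : ((fw h N m).map (dl α)).prod = cc α ^ m := by
  induction m with
  | zero => simp [fw]
  | succ m ih =>
    rw [fw_succ, List.map_append, List.prod_append, ih, pow_succ]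
    rfl

theorem fw_count (h N m : ℕ) : ((fw h N m).map yn).sum = m * (2 * (2 * h + N)) := by
  induction m with
  | zero => simp [fw]
  | succ m ih =>
    rw [fw_succ, List.map_append, List.sum_append, ih, yl_count]
    ring

theorem fcl_length (s : ℕ) (α : X h N → A) (m : ℕ) (a : A) :
    (fcl s α m a).length = m * (2 * (2 * h + N)) := by
  unfold fcl
  rw [List.length_map, wd_length, fw_count]

/-- The displacement of the positions before `y`. -/
def pp (α : X h N → A) (y : Y h N) : A := ((pre (yl h N) y).map (dl α)).prod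

/-- Consecutive positions. -/
theorem pp_succ (α : X h N → A) {w₁ w₂ : List (Y h N)} {y y' : Y h N}
    (hw : yl h N = w₁ ++ y :: y' :: w₂) : pp α y' = pp α y * dl α y := by
  have nd := nodup_yl h N
  have e1 : pre (yl h N) y = w₁ := by
    rw [hw] at nd ⊢
    exact pre_eq_of_split nd
  have e2 : pre (yl h N) y' = w₁ ++ [y] := by
    have hw' : yl h N = (w₁ ++ [y]) ++ y' :: w₂ := by rw [hw]; simp
    rw [hw'] at nd ⊢
    exact pre_eq_of_split nd
  unfold pp
  rw [e1, e2]
  simp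

theorem pp_head (α : X h N → A) {y₀ : Y h N} {w : List (Y h N)} (hw : yl h N = y₀ :: w) :
    pp α y₀ = 1 := by
  have nd := nodup_yl h N
  have e1 : pre (yl h N) y₀ = [] := by
    have hw' : yl h N = [] ++ y₀ :: w := hw
    rw [hw'] at nd ⊢
    exact pre_eq_of_split nd
  unfold pp
  rw [e1]
  simp

/-- The block of the walk of a face. -/
theorem block (α : X h N → A) {m t : ℕ} (ht : t < m) (a : A) :
    wd α a (fw h N m) = wd α a (fw h N t) ++ (wd α (a * cc α ^ t) (yl h N) ++
      wd α (a * cc α ^ t * cc α) (fw h N (m - t - 1))) := by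
  rw [fw_split ht, wd_append, wd_append, fw_prod]
  rfl

theorem mem_block (α : X h N → A) (a : A) (y : Y h N) {p : X h N × A × Bool}
    (hp : p ∈ dd α y (a * pp α y)) : p ∈ wd α a (yl h N) := by
  obtain ⟨B, hB⟩ := pre_split (mem_yl y)
  rw [hB]
  exact mem_wd α a _ _ y hp

theorem mem_face (α : X h N → A) {m t : ℕ} (ht : t < m) {a b : A} (hb : b = a * cc α ^ t)
    (y : Y h N) {p : X h N × A × Bool} (hp : p ∈ dd α y (b * pp α y)) :
    p ∈ wd α a (fw h N m) := by
  rw [block α ht a, ← hb]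
  exact List.mem_append_right _ (List.mem_append_left _ (mem_block α b y hp))

/-- The positive position of a generator. -/
def ys : X h N → Y h N
  | Sum.inl (Sum.inl i) => Sum.inl (i, 0)
  | Sum.inl (Sum.inr i) => Sum.inl (i, 1)
  | Sum.inr j => Sum.inr j

theorem yv_ys (x : X h N) : yv (ys x) = FreeGroup.of x := by
  rcases x with (i | i) | j <;> rfl

theorem dl_ys (α : X h N → A) (x : X h N) : dl α (ys x) = α x := by
  unfold dl
  rw [yv_ys, FreeGroup.lift_apply_of]

theorem yl_ne (hN : 0 < h + N) : ∃ y₀ w, yl h N = y₀ :: w := by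
  have h1 : yl h N ≠ [] := by
    intro h2
    rcases Nat.eq_zero_or_pos h with h0 | h0
    · have h3 := mem_yl (Sum.inr ⟨0, by omega⟩ : Y h N)
      rw [h2] at h3
      simp at h3
    · have h3 := mem_yl (Sum.inl (⟨0, h0⟩, 0) : Y h N)
      rw [h2] at h3
      simp at h3
  exact List.exists_cons_of_ne_nil h1

omit [Group A] in
theorem fl_fl (p : X h N × A × Bool) : fl (fl p) = p := by
  obtain ⟨x, a, b⟩ := p
  simp [fl]

omit [Group A] in
theorem sg_sg (p : Dt h N s A) : sg (sg p) = p := by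
  rcases p with p | k
  · simp [sg, fl_fl]
  · rfl

omit [Group A] in
theorem sg_ne (q : X h N × A × Bool) : (sg (Sum.inl q) : Dt h N s A) ≠ Sum.inl q := by
  obtain ⟨j, a, b⟩ := q
  intro h
  simp [sg, fl] at h

omit [Group A] in
theorem ep_fl (q : X h N × A × Bool) : ep (fl q) = (ep q)⁻¹ := by
  obtain ⟨x, a, b⟩ := q
  cases b <;> simp [fl, ep]

theorem mem_fcl {α : X h N → A} {m : ℕ} {a : A} {p : Dt h N s A} :
    p ∈ fcl s α m a ↔ ∃ q ∈ wd α a (fw h N m), Sum.inl q = p := by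
  unfold fcl
  rw [List.mem_map]

theorem vl_fcl {α : X h N → A} {m : ℕ} {g : Fin s → A} (a : A) :
    vl (vv α m g) (fcl s α m a) = vl ep (wd α a (fw h N m)) := by
  unfold fcl
  rw [vl_map]
  rfl

variable [Fintype A] {α : X h N → A} {m : ℕ} {g₀ : A} {g : Fin s → A}

/-- All darts are covered. -/
theorem Dat.full (D : Dat α m g₀ g) (p : X h N × A × Bool) :
    p ∈ wd α g₀ (fw h N m) ∨ ∃ k, p ∈ wd α (g k) (fw h N m) := by
  obtain ⟨y, b, hp⟩ := dart_pos α p
  have hp' : p ∈ dd α y (b * (pp α y)⁻¹ * pp α y) := by rwa [inv_mul_cancel_right]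
  rcases D.cov (b * (pp α y)⁻¹) with ⟨t, ht, h1⟩ | ⟨k, t, ht, h1⟩
  · exact Or.inl (mem_face α ht h1 y hp')
  · exact Or.inr ⟨k, mem_face α ht h1 y hp'⟩

theorem Dat.nodup (D : Dat α m g₀ g) : (wd α g₀ (fw h N m) ++
    (List.finRange s).flatMap fun k => wd α (g k) (fw h N m)).Nodup := by
  classical
  have hfull : ∀ p, p ∈ wd α g₀ (fw h N m) ++
      (List.finRange s).flatMap fun k => wd α (g k) (fw h N m) := by
    intro p
    rw [List.mem_append, List.mem_flatMap]
    rcases D.full p with h | ⟨k, h⟩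
    · exact Or.inl h
    · exact Or.inr ⟨k, List.mem_finRange k, h⟩
  set l := wd α g₀ (fw h N m) ++ (List.finRange s).flatMap fun k => wd α (g k) (fw h N m) with hl
  have hlen : l.length = m * (2 * (2 * h + N)) * (s + 1) := by
    rw [hl, List.length_append, wd_length, fw_count, List.length_flatMap]
    simp only [wd_length, fw_count]
    simp
    ring
  have h1 : (l : Multiset (X h N × A × Bool)).toFinset = Finset.univ := by
    ext p
    simpa using hfull p
  have h2 : ((l : Multiset (X h N × A × Bool)).toFinset).card =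
      Multiset.card (l : Multiset (X h N × A × Bool)) := by
    rw [h1, Finset.card_univ, Fintype.card_prod, Fintype.card_prod, Fintype.card_sum,
      Fintype.card_sum, Fintype.card_fin, Fintype.card_fin, Fintype.card_bool, D.card,
      Multiset.coe_card, hlen]
    ring
  exact Multiset.toFinset_card_eq_card_iff_nodup.1 h2

theorem Dat.conn (D : Dat α m g₀ g) (R : Finset (Fin s)) (hR : R.Nonempty) :
    ∃ p : Dt h N s A, (p ∈ fcl s α m g₀ ∨ ∃ k, k ∉ R ∧ p ∈ fcl s α m (g k)) ∧
      ∃ k ∈ R, sg p ∈ fcl s α m (g k) := by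
  by_contra hcon
  -- the set of the blocks in the merged faces
  set M : Set A := {a | (∃ t < m, a = g₀ * cc α ^ t) ∨ ∃ k, k ∉ R ∧ ∃ t < m, a = g k * cc α ^ t}
    with hM
  have hmem : ∀ a ∈ M, ∀ y, ∀ p ∈ dd α y (a * pp α y),
      ((Sum.inl p : Dt h N s A) ∈ fcl s α m g₀ ∨
        ∃ k, k ∉ R ∧ (Sum.inl p : Dt h N s A) ∈ fcl s α m (g k)) := by
    intro a ha y p hp
    rcases ha with ⟨t, ht, h1⟩ | ⟨k, hk, t, ht, h1⟩
    · exact Or.inl (mem_fcl.2 ⟨_, mem_face α ht h1 y hp, rfl⟩)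
    · exact Or.inr ⟨k, hk, mem_fcl.2 ⟨_, mem_face α ht h1 y hp, rfl⟩⟩
  have hnot : ∀ p : Dt h N s A, (p ∈ fcl s α m g₀ ∨ ∃ k, k ∉ R ∧ p ∈ fcl s α m (g k)) →
      ∀ k ∈ R, sg p ∉ fcl s α m (g k) := by
    intro p hp k hk h1
    exact hcon ⟨p, hp, k, hk, h1⟩
  have hin : ∀ a : A, ∀ y, (∀ k ∈ R,
      (Sum.inl (hd α y (a * pp α y)) : Dt h N s A) ∉ fcl s α m (g k)) → a ∈ M := by
    intro a y h
    rcases D.cov a with h1 | ⟨k, t, ht, h1⟩
    · exact Or.inl h1
    · by_cases hk : k ∈ R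
      · exact absurd (mem_fcl.2 ⟨_, mem_face α ht h1 y (hd_mem α y _), rfl⟩) (h k hk)
      · exact Or.inr ⟨k, hk, t, ht, h1⟩
  -- the moves
  have mv : ∀ y, ∀ a ∈ M, a * (pp α y * dl α y * (pp α (pi y))⁻¹) ∈ M := by
    intro y a ha
    obtain ⟨p, hp, hfl, -⟩ := exists_last α y (a * pp α y)
    refine hin _ (pi y) fun k hk h1 => ?_
    refine hnot _ (hmem a ha y p hp) k hk ?_
    have e1 : a * (pp α y * dl α y * (pp α (pi y))⁻¹) * pp α (pi y) = a * pp α y * dl α y := by
      group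
    rw [e1, ← hfl] at h1
    exact h1
  set St : Subgroup A :=
    { carrier := {x | ∀ a, a ∈ M ↔ a * x ∈ M}
      mul_mem' := by
        intro x y hx hy a
        rw [← mul_assoc]
        exact (hx a).trans (hy (a * x))
      one_mem' := by
        intro a
        rw [mul_one]
      inv_mem' := by
        intro x hx a
        have h1 := hx (a * x⁻¹)
        rw [inv_mul_cancel_right] at h1
        exact h1.symm } with hSt
  have hq : ∀ y, pp α y * dl α y * (pp α (pi y))⁻¹ ∈ St := by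
    intro y a
    refine ⟨fun ha => mv y a ha, fun ha => ?_⟩
    set q := pp α y * dl α y * (pp α (pi y))⁻¹ with hq
    have hpow : ∀ n : ℕ, ∀ b ∈ M, b * q ^ n ∈ M := by
      intro n
      induction n with
      | zero => intro b hb; rwa [pow_zero, mul_one]
      | succ n ih =>
        intro b hb
        rw [pow_succ, ← mul_assoc]
        exact mv y _ (ih b hb)
    have h1 := hpow (Fintype.card A - 1) _ ha
    have h2 : 0 < Fintype.card A := Fintype.card_pos
    have e1 : a * q * q ^ (Fintype.card A - 1) = a := by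
      rw [mul_assoc, ← pow_succ', Nat.sub_add_cancel h2, pow_card_eq_one, mul_one]
    rwa [e1] at h1
  obtain ⟨y₀, w₀, hw₀⟩ := yl_ne D.hN
  have hpp : ∀ y, pp α y ∈ St := by
    intro y
    have h1 := chainY (h := h) (N := N) (fun u v : A => u * v⁻¹ ∈ St) ?_ ?_ (pp α) ?_ y₀ w₀ hw₀ y
    · rw [pp_head α hw₀, inv_one, mul_one] at h1
      exact h1
    · intro u
      rw [mul_inv_cancel]
      exact St.one_mem
    · intro u v w huv hvw
      have h2 := St.mul_mem huv hvw
      have e1 : u * v⁻¹ * (v * w⁻¹) = u * w⁻¹ := by group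
      rwa [e1] at h2
    · intro w₁ y y' w₂ hw
      change pp α y' * (pp α (pi y))⁻¹ ∈ St
      rw [pp_succ α hw]
      exact hq y
  have htop : St = ⊤ := by
    rw [← top_le_iff, ← D.gen, Subgroup.closure_le]
    rintro _ ⟨x, rfl⟩
    have h1 := St.mul_mem (St.mul_mem (St.inv_mem (hpp (ys x))) (hq (ys x))) (hpp (pi (ys x)))
    have e1 : (pp α (ys x))⁻¹ * (pp α (ys x) * dl α (ys x) * (pp α (pi (ys x)))⁻¹) *
        pp α (pi (ys x)) = dl α (ys x) := by group
    rw [e1, dl_ys] at h1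
    exact h1
  obtain ⟨k, hk⟩ := hR
  have hm0 : 0 < m := by
    rcases D.cov 1 with ⟨t, ht, -⟩ | ⟨-, t, ht, -⟩ <;> omega
  have h0 : g₀ ∈ M := Or.inl ⟨0, hm0, by simp⟩
  have hgk : g k ∈ M := by
    have h1 : g₀⁻¹ * g k ∈ St := by rw [htop]; trivial
    have h2 := (h1 g₀).1 h0
    rwa [mul_inv_cancel_left] at h2
  -- but the face of `g k` is not merged
  have h3 : (Sum.inl (hd α y₀ (g k * pp α y₀)) : Dt h N s A) ∈ fcl s α m (g k) :=
    mem_fcl.2 ⟨_, mem_face α hm0 (by simp) y₀ (hd_mem α y₀ _), rfl⟩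
  have hnd := D.nodup
  rw [List.nodup_append] at hnd
  obtain ⟨-, n2, n3⟩ := hnd
  rw [List.nodup_flatMap] at n2
  haveI hsy : Std.Symm (Function.onFun List.Disjoint fun k => wd α (g k) (fw h N m)) :=
    ⟨fun a b h => List.Disjoint.symm h⟩
  have n4 := fun (a : Fin s) (ha : a ∈ List.finRange s) (b : Fin s) (hb : b ∈ List.finRange s)
    (hab : a ≠ b) => n2.2.forall ha hb hab
  rcases hmem _ hgk y₀ _ (hd_mem α y₀ _) with h4 | ⟨k', hk', h4⟩
  · rw [mem_fcl] at h3 h4
    obtain ⟨q, hq1, hq2⟩ := h3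
    obtain ⟨q', hq1', hq2'⟩ := h4
    have : q = q' := Sum.inl_injective (hq2.trans hq2'.symm)
    subst this
    exact n3 q hq1' q (List.mem_flatMap.2 ⟨k, List.mem_finRange k, hq1⟩) rfl
  · rw [mem_fcl] at h3 h4
    obtain ⟨q, hq1, hq2⟩ := h3
    obtain ⟨q', hq1', hq2'⟩ := h4
    have : q = q' := Sum.inl_injective (hq2.trans hq2'.symm)
    subst this
    have hne : k ≠ k' := fun hh => hk' (hh ▸ hk)
    exact n4 k (List.mem_finRange k) k' (List.mem_finRange k') hne hq1 hq1'

theorem Dat.sys (D : Dat α m g₀ g) :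
    Sys (sg (h := h) (N := N) (s := s) (A := A)) (vv α m g) (fun k => fcl s α m (g k)) Sum.inr
      (fcl s α m g₀) := by
  have hnd := D.nodup
  rw [List.nodup_append] at hnd
  obtain ⟨n1, n2, n3⟩ := hnd
  rw [List.nodup_flatMap] at n2
  haveI hsy : Std.Symm (Function.onFun List.Disjoint fun k => wd α (g k) (fw h N m)) :=
    ⟨fun a b h => List.Disjoint.symm h⟩
  have n4 := fun (a : Fin s) (ha : a ∈ List.finRange s) (b : Fin s) (hb : b ∈ List.finRange s)
    (hab : a ≠ b) => n2.2.forall ha hb hab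
  have hful : ∀ q : X h N × A × Bool, (Sum.inl q : Dt h N s A) ∈ fcl s α m g₀ ∨
      ∃ k, (Sum.inl q : Dt h N s A) ∈ fcl s α m (g k) := by
    intro q
    rcases D.full q with h | ⟨k, h⟩
    · exact Or.inl (mem_fcl.2 ⟨q, h, rfl⟩)
    · exact Or.inr ⟨k, mem_fcl.2 ⟨q, h, rfl⟩⟩
  refine ⟨sg_sg, ?_, fun k => rfl, ?_, ?_, ?_, ?_, ?_, ?_, ?_, Sum.inr_injective, ?_, ?_, D.conn⟩
  · rintro (q | k) h
    · exact ep_fl q
    · exact absurd rfl h
  · intro k
    rw [vl_fcl]
    rfl
  · intro k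
    exact (n2.1 k (List.mem_finRange k)).map Sum.inl_injective
  · intro k k' hkk p hp hp'
    rw [mem_fcl] at hp hp'
    obtain ⟨q, hq1, hq2⟩ := hp
    obtain ⟨q', hq1', hq2'⟩ := hp'
    have : q = q' := Sum.inl_injective (hq2.trans hq2'.symm)
    subst this
    exact n4 k (List.mem_finRange k) k' (List.mem_finRange k') hkk hq1 hq1'
  · exact n1.map Sum.inl_injective
  · intro k p hp hp'
    rw [mem_fcl] at hp hp'
    obtain ⟨q, hq1, hq2⟩ := hp
    obtain ⟨q', hq1', hq2'⟩ := hp'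
    have : q = q' := Sum.inl_injective (hq2.trans hq2'.symm)
    subst this
    exact n3 q hq1' q (List.mem_flatMap.2 ⟨k, List.mem_finRange k, hq1⟩) rfl
  · intro k p hp
    obtain ⟨q, -, rfl⟩ := mem_fcl.1 hp
    exact sg_ne q
  · intro p hp
    obtain ⟨q, -, rfl⟩ := mem_fcl.1 hp
    exact sg_ne q
  · intro p hp
    rcases hp with hp | ⟨k, hp⟩
    · obtain ⟨q, -, rfl⟩ := mem_fcl.1 hp
      exact hful _
    · obtain ⟨q, -, rfl⟩ := mem_fcl.1 hp
      exact hful _
  · rw [← top_le_iff, ← FreeGroup.closure_range_of, Subgroup.closure_le]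
    rintro _ ⟨⟨x, a⟩, rfl⟩
    exact Subgroup.subset_closure ⟨Sum.inl (x, a, true), hful _, rfl⟩

end sys

end Pool.MP_59b15d_al.H95H
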