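import Pool.Agent.H.MP_59b15d_al.h95h.Mh4

/-!
# The closed paths
-/

set_option autoImplicit false

namespace Pool.MP_59b15d_al.H95H

open Pool.MP_59b15d_al.H95 (vl vl_nil vl_cons vl_append vl_map Sys pre Rl Wk Wk_nil Wk_cons
  Wk_append Good)

section

variable {h N s : ℕ} {A : Type*} [Group A] {α : X h N → A}

/-- The closed path of an element of the kernel. -/
def Jh (α : X h N → A) (g₀ : A) : (FreeGroup.lift α).ker →* FreeGroup (X h N × A) where
  toFun k := Th α g₀ k
  map_one' := Th_one α g₀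
  map_mul' := by
    rintro ⟨x, hx⟩ ⟨y, hy⟩
    change Th α g₀ (x * y) = Th α g₀ x * Th α g₀ y
    rw [Th_mul, (MonoidHom.mem_ker).1 hx, mul_one]

theorem Th_mem_range {g₀ : A} {w : FreeGroup (X h N)} (hw : FreeGroup.lift α w = 1) :
    Th α g₀ w ∈ (Jh α g₀).range := ⟨⟨w, hw⟩, rfl⟩

/-- A section on the vertices is compatible with all paths. -/
theorem sec_path {H : Subgroup (FreeGroup (X h N × A))} {B : A → FreeGroup (X h N × A)}
    (hB : ∀ a x, Rl H (B a * Th α a (FreeGroup.of x)) (B (a * α x))) (w : FreeGroup (X h N)) :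
    ∀ a, Rl H (B a * Th α a w) (B (a * FreeGroup.lift α w)) := by
  induction w using FreeGroup.induction_on with
  | C1 =>
    intro a
    rw [Th_one, map_one, mul_one, mul_one]
    exact Pool.MP_59b15d_al.H95.Rl.refl _ _
  | of j =>
    intro a
    rw [FreeGroup.lift_apply_of]
    exact hB a j
  | inv_of j _ =>
    intro a
    rw [Th_inv, map_inv, FreeGroup.lift_apply_of]
    have h1 := (hB (a * (α j)⁻¹) j).symm.mul (Th α (a * (α j)⁻¹) (FreeGroup.of j))⁻¹
    rw [inv_mul_cancel_right, mul_inv_cancel_right] at h1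
    exact h1
  | mul x y hx hy =>
    intro a
    rw [Th_mul, ← mul_assoc, map_mul, ← mul_assoc]
    exact ((hx a).mul _).trans (hy _)

/-- The label after the last dart of a walk. -/
theorem wk_last {I F : Type*} [Group F] {H : Subgroup F} {ε b : I → F} {u : F} {l : List I} {p : I}
    (hw : Wk H ε b u l) (hp : l.getLast? = some p) : Rl H (b p * ε p) (u * vl ε l) := by
  obtain ⟨l', rfl⟩ := List.getLast?_eq_some_iff.1 hp
  rw [Wk_append, Wk_cons] at hw
  rw [vl_append, vl_cons, vl_nil, mul_one, ← mul_assoc]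
  exact hw.2.1.mul _

variable [Fintype A] {m : ℕ} {g₀ : A} {g : Fin s → A}

theorem Dat.lift_surj (D : Dat α m g₀ g) : Function.Surjective (FreeGroup.lift α) := by
  rw [← MonoidHom.range_eq_top, FreeGroup.range_lift_eq_closure, D.gen]

/-- Sections modulo the closed paths. -/
theorem Dat.exists_sec (D : Dat α m g₀ g) : ∃ (u : A → FreeGroup (X h N)),
    (∀ a, FreeGroup.lift α (u a) = g₀⁻¹ * a) ∧
    ∀ (H : Subgroup (FreeGroup (X h N × A))), (Jh α g₀).range ≤ H → ∀ a w,
      Rl H (Th α g₀ (u a) * Th α a w) (Th α g₀ (u (a * FreeGroup.lift α w))) := by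
  choose u hu using fun a => D.lift_surj (g₀⁻¹ * a)
  refine ⟨u, hu, fun H hH a w => ?_⟩
  have h1 : FreeGroup.lift α (u a * w * (u (a * FreeGroup.lift α w))⁻¹) = 1 := by
    rw [map_mul, map_mul, map_inv, hu, hu]
    group
  have h2 := hH (Th_mem_range (g₀ := g₀) h1)
  rw [Th_mul, Th_mul, Th_inv, map_mul, hu, hu] at h2
  have e1 : g₀ * (g₀⁻¹ * a) = a := by group
  have e2 : g₀ * (g₀⁻¹ * a * FreeGroup.lift α w) * (g₀⁻¹ * (a * FreeGroup.lift α w))⁻¹ = g₀ := by
    group
  rw [e1, e2] at h2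
  exact h2

theorem Dat.good_imp (D : Dat α m g₀ g) {H : Subgroup (FreeGroup (X h N × A))}
    (hG : Good sg (vv α m g) (fun k => fcl s α m (g k)) (fcl s α m g₀) Finset.univ H) :
    (Jh α g₀).range ≤ H := by
  obtain ⟨b, β, w1, w2, w3, w4⟩ := hG
  have hm0 : 0 < m := by
    rcases D.cov 1 with ⟨t, ht, -⟩ | ⟨-, t, ht, -⟩ <;> omega
  have hful : ∀ q : X h N × A × Bool, (Sum.inl q : Dt h N s A) ∈ fcl s α m g₀ ∨
      ∃ k ∈ (Finset.univ : Finset (Fin s)), (Sum.inl q : Dt h N s A) ∈ fcl s α m (g k) := by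
    intro q
    rcases D.full q with h | ⟨k, h⟩
    · exact Or.inl (mem_fcl.2 ⟨q, h, rfl⟩)
    · exact Or.inr ⟨k, Finset.mem_univ k, mem_fcl.2 ⟨q, h, rfl⟩⟩
  have hσ : ∀ q : X h N × A × Bool, Rl H (b (Sum.inl (fl q))) (b (Sum.inl q) * ep q) :=
    fun q => w4 (Sum.inl q) (hful _)
  have hvd : ∀ y a, vl (vv α m g) ((dd α y a).map (Sum.inl : _ → Dt h N s A)) =
      Th α a (yv y) := by
    intro y a
    rw [vl_map, ← vl_dd]
    rfl
  -- blocks
  have hb1 : ∀ (a' : A) (u : FreeGroup (X h N × A)) (t : ℕ), t < m →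
      Wk H (vv α m g) b u (fcl s α m a') →
      ∃ u', Wk H (vv α m g) b u' ((wd α (a' * cc α ^ t) (yl h N)).map Sum.inl) ∧
        (t = 0 → u' = u) := by
    intro a' u t ht h
    unfold fcl at h
    rw [block α ht, List.map_append, List.map_append, Wk_append, Wk_append] at h
    refine ⟨_, h.2.1, ?_⟩
    rintro rfl
    simp [fw, wd]
  have hb2 : ∀ a : A, ∃ u, Wk H (vv α m g) b u ((wd α a (yl h N)).map Sum.inl) := by
    intro a
    rcases D.cov a with ⟨t, ht, rfl⟩ | ⟨k, t, ht, rfl⟩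
    · obtain ⟨u, hu, -⟩ := hb1 g₀ 1 t ht w1
      exact ⟨u, hu⟩
    · obtain ⟨u, hu, -⟩ := hb1 (g k) (β k) t ht (w3 k (Finset.mem_univ k)).2
      exact ⟨u, hu⟩
  -- the positions of a block
  have hb3 : ∀ (a : A) (w₁ w₂ : List (Y h N)) (y : Y h N), yl h N = w₁ ++ y :: w₂ →
      ∃ u', Wk H (vv α m g) b u' ((dd α y a).map Sum.inl) ∧
        Wk H (vv α m g) b (u' * Th α a (yv y)) ((wd α (a * dl α y) w₂).map Sum.inl) := by
    intro a w₁ w₂ y hy
    obtain ⟨u, hu⟩ := hb2 (a * ((w₁.map (dl α)).prod)⁻¹)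
    rw [hy, wd_append, wd, inv_mul_cancel_right, List.map_append, List.map_append, Wk_append,
      Wk_append, hvd] at hu
    exact ⟨_, hu.2⟩
  have R1 : ∀ a y u', Wk H (vv α m g) b u' ((dd α y a).map Sum.inl) →
      Rl H (b (Sum.inl (hd α y a))) u' ∧
      Rl H (b (Sum.inl (hd α (pi y) (a * dl α y)))) (u' * Th α a (yv y)) := by
    intro a y u' hu
    obtain ⟨p, hp, hfl, hlast⟩ := exists_last α y a
    constructor
    · have h1 : ∃ l, dd α y a = hd α y a :: l := by
        revert y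
        apply Y_cases <;> intro i <;> intros <;> exact ⟨_, rfl⟩
      obtain ⟨l, hl⟩ := h1
      rw [hl, List.map_cons, Wk_cons] at hu
      exact hu.1
    · have h1 : ((dd α y a).map (Sum.inl : _ → Dt h N s A)).getLast? = some (Sum.inl p) := by
        rw [List.getLast?_map, hlast]
        rfl
      have h2 := wk_last hu h1
      rw [hvd] at h2
      rw [← hfl]
      exact (hσ p).trans h2
  have R2 : ∀ a w₁ w₂ y y', yl h N = w₁ ++ y :: y' :: w₂ →
      Rl H (b (Sum.inl (hd α y' a))) (b (Sum.inl (hd α (pi y) a))) := by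
    intro a w₁ w₂ y y' hy
    obtain ⟨u', h1, h2⟩ := hb3 (a * (dl α y)⁻¹) w₁ (y' :: w₂) y hy
    have h3 := (R1 _ _ _ h1).2
    rw [inv_mul_cancel_right] at h2 h3
    rw [wd, List.map_append, Wk_append] at h2
    exact (R1 _ _ _ h2.1).1.trans h3.symm
  obtain ⟨y₀, w₀, hw₀⟩ := yl_ne D.hN
  have hV : ∀ a y, Rl H (b (Sum.inl (hd α y a))) (b (Sum.inl (hd α y₀ a))) := by
    intro a y
    exact chainY (Rl H) (Pool.MP_59b15d_al.H95.Rl.refl H) (fun u v w => fun h1 h2 => h1.trans h2)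
      (fun y => b (Sum.inl (hd α y a))) (fun w₁ y y' w₂ hy => R2 a w₁ w₂ y y' hy) y₀ w₀ hw₀ y
  have hstep : ∀ a x, Rl H (b (Sum.inl (hd α y₀ a)) * Th α a (FreeGroup.of x))
      (b (Sum.inl (hd α y₀ (a * α x)))) := by
    intro a x
    obtain ⟨w₂, hw₂⟩ := Pool.MP_59b15d_al.H95.pre_split (mem_yl (ys x))
    obtain ⟨u', h1, -⟩ := hb3 a _ w₂ (ys x) hw₂
    obtain ⟨h2, h3⟩ := R1 _ _ _ h1
    rw [yv_ys, dl_ys] at h3
    exact (((hV a (ys x)).symm.trans h2).mul _).trans (h3.symm.trans (hV _ _))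
  have hbase : Rl H (b (Sum.inl (hd α y₀ g₀))) 1 := by
    obtain ⟨u, hu, hu0⟩ := hb1 g₀ 1 0 hm0 w1
    rw [hw₀, wd, List.map_append, Wk_append, pow_zero, mul_one, hu0 rfl] at hu
    exact (R1 _ _ _ hu.1).1
  rintro _ ⟨⟨w, hw⟩, rfl⟩
  have h1 := sec_path hstep w g₀
  rw [MonoidHom.mem_ker] at hw
  rw [hw, mul_one] at h1
  have h2 := ((hbase.mul (Th α g₀ w)).symm.trans h1).trans hbase
  unfold Rl at h2
  rw [one_mul, inv_one, mul_one] at h2
  exact h2

/-- The labels of a section. -/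
def lb (α : X h N → A) (s : ℕ) (B : A → FreeGroup (X h N × A)) :
    Dt h N s A → FreeGroup (X h N × A)
  | Sum.inl (_, a, true) => B a
  | Sum.inl (Sum.inl c, a, false) => B (a * α (Sum.inl c))
  | Sum.inl (Sum.inr j, a, false) => B a * FreeGroup.of (Sum.inr j, a)
  | Sum.inr _ => 1

theorem Dat.imp_good (D : Dat α m g₀ g) {H : Subgroup (FreeGroup (X h N × A))}
    (hH : (Jh α g₀).range ≤ H) :
    Good sg (vv α m g) (fun k => fcl s α m (g k)) (fcl s α m g₀) Finset.univ H := by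
  obtain ⟨u, hu, hsec⟩ := D.exists_sec
  have hsec := hsec H hH
  set B : A → FreeGroup (X h N × A) := fun a => Th α g₀ (u a) with hB
  set b : Dt h N s A → FreeGroup (X h N × A) := lb α s B with hb
  have b1 : ∀ x a, b (Sum.inl (x, a, true)) = B a := fun _ _ => rfl
  have b2 : ∀ c a, b (Sum.inl (Sum.inl c, a, false)) = B (a * α (Sum.inl c)) := fun _ _ => rfl
  have b3 : ∀ j a, b (Sum.inl (Sum.inr j, a, false)) = B a * FreeGroup.of (Sum.inr j, a) :=
    fun _ _ => rfl
  have hof : ∀ a x, Rl H (B a * Th α a (FreeGroup.of x)) (B (a * α x)) := by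
    intro a x
    have h1 := hsec a (FreeGroup.of x)
    rwa [FreeGroup.lift_apply_of] at h1
  have hbase : Rl H (B g₀) 1 := by
    have h1 : FreeGroup.lift α (u g₀) = 1 := by rw [hu]; group
    have h2 := hH (Th_mem_range (g₀ := g₀) h1)
    unfold Rl
    rw [inv_one, mul_one]
    exact h2
  have hdd : ∀ (y : Y h N) (a : A) (v : FreeGroup (X h N × A)), Rl H v (B a) →
      Wk H (vv α m g) b v ((dd α y a).map Sum.inl) := by
    intro y a v hv
    revert y
    apply Y_cases <;> intro i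
    · exact ⟨hv.symm, trivial⟩
    · exact ⟨hv.symm, trivial⟩
    · refine ⟨?_, trivial⟩
      rw [b2, inv_mul_cancel_right]
      exact hv.symm
    · refine ⟨?_, trivial⟩
      rw [b2, inv_mul_cancel_right]
      exact hv.symm
    · refine ⟨hv.symm, ?_, trivial⟩
      rw [b3]
      have h3 := (hof a (Sum.inr i)).symm.mul (FreeGroup.of (Sum.inr i, a * α (Sum.inr i)))
      rw [Th_inr, ← mul_assoc, inv_mul_cancel_right] at h3
      exact h3.trans (hv.symm.mul _)
  have hvd : ∀ y a, vl (vv α m g) ((dd α y a).map (Sum.inl : _ → Dt h N s A)) =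
      Th α a (yv y) := by
    intro y a
    rw [vl_map, ← vl_dd]
    rfl
  have hwk : ∀ (w : List (Y h N)) (a : A) (v : FreeGroup (X h N × A)), Rl H v (B a) →
      Wk H (vv α m g) b v ((wd α a w).map Sum.inl) := by
    intro w
    induction w with
    | nil => intro a v _; exact trivial
    | cons y w ih =>
      intro a v hv
      rw [wd, List.map_append, Wk_append, hvd]
      exact ⟨hdd y a v hv, ih _ _ ((hv.mul _).trans (hsec a (yv y)))⟩
  have hface : ∀ a, Rl H (B a * vl (vv α m g) (fcl s α m a)) (B a) := by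
    intro a
    rw [vl_fcl, vl_wd]
    have h1 := hsec a ((fw h N m).map yv).prod
    rw [lift_prod, fw_prod α, D.pm, mul_one] at h1
    exact h1
  refine ⟨b, fun k => B (g k), hwk _ _ _ hbase.symm, ?_, ?_, ?_⟩
  · have h1 := ((hbase.mul (vl (vv α m g) (fcl s α m g₀))).symm.trans (hface g₀)).trans hbase
    rwa [one_mul] at h1
  · intro k _
    exact ⟨hface (g k), hwk _ _ _ (Pool.MP_59b15d_al.H95.Rl.refl _ _)⟩
  · intro p hp
    rcases p with ⟨x, a, e⟩ | k
    · rcases x with c | j <;> cases e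
      · change Rl H (B a) (B (a * α (Sum.inl c)) * (FreeGroup.of (Sum.inl c, a))⁻¹)
        have h3 := (hof a (Sum.inl c)).mul (FreeGroup.of (Sum.inl c, a))⁻¹
        rw [Th_inl, mul_inv_cancel_right] at h3
        exact h3
      · change Rl H (B (a * α (Sum.inl c))) (B a * FreeGroup.of (Sum.inl c, a))
        rw [← Th_inl α]
        exact (hof a (Sum.inl c)).symm
      · change Rl H (B a) (B a * FreeGroup.of (Sum.inr j, a) * (FreeGroup.of (Sum.inr j, a))⁻¹)
        rw [mul_inv_cancel_right]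
        exact Pool.MP_59b15d_al.H95.Rl.refl _ _
      · exact Pool.MP_59b15d_al.H95.Rl.refl _ _
    · exfalso
      rcases hp with h1 | ⟨k', -, h1⟩
      · obtain ⟨q, -, hq⟩ := mem_fcl.1 h1
        cases hq
      · obtain ⟨q, -, hq⟩ := mem_fcl.1 h1
        cases hq

theorem Dat.good_iff (D : Dat α m g₀ g) (H : Subgroup (FreeGroup (X h N × A))) :
    Good sg (vv α m g) (fun k => fcl s α m (g k)) (fcl s α m g₀) Finset.univ H ↔
      (Jh α g₀).range ≤ H := ⟨D.good_imp, D.imp_good⟩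

end

end Pool.MP_59b15d_al.H95H
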