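import Pool.Agent.H.MP_59b15d_al.h95h.Mh6
import Pool.Agent.H.MP_59b15d_al.h95.Mf7

/-!
# The number of homomorphisms trivial on the closed paths
-/

set_option autoImplicit false

namespace Pool.MP_59b15d_al.H95H

open Pool.MP_59b15d_al.H95 (T2 card_T2 Rl)

variable {h N s : ℕ} {A : Type*} [Group A] [Fintype A] {α : X h N → A} {m : ℕ} {g₀ : A}
  {g : Fin s → A}

/-- The vertices other than the base vertex. -/
abbrev Vx (α : X h N → A) (g₀ : A) : Type _ :=
  {a : A // a ≠ g₀} ⊕ (Σ j : Fin N, A ⧸ Subgroup.zpowers (α (Sum.inr j)))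

open Classical in
/-- The values at the vertices of `A`. -/
noncomputable def bf (f : Vx α g₀ → T2) (a : A) : T2 := if h : a ≠ g₀ then f (Sum.inl ⟨a, h⟩) else 1

/-- The homomorphism of a function on the vertices. -/
noncomputable def Ph (f : Vx α g₀ → T2) : FreeGroup (X h N × A) →* T2 :=
  FreeGroup.lift fun p => match p.1 with
    | Sum.inl c => (bf f p.2)⁻¹ * bf f (p.2 * α (Sum.inl c))
    | Sum.inr j => (bf f p.2)⁻¹ *
        f (Sum.inr ⟨j, (p.2 : A ⧸ Subgroup.zpowers (α (Sum.inr j)))⟩)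

theorem Ph_inl (f : Vx α g₀ → T2) (c : Fin h ⊕ Fin h) (a : A) :
    Ph f (FreeGroup.of (Sum.inl c, a)) = (bf f a)⁻¹ * bf f (a * α (Sum.inl c)) := by
  unfold Ph
  rw [FreeGroup.lift_apply_of]

theorem Ph_inr (f : Vx α g₀ → T2) (j : Fin N) (a : A) : Ph f (FreeGroup.of (Sum.inr j, a)) =
    (bf f a)⁻¹ * f (Sum.inr ⟨j, (a : A ⧸ Subgroup.zpowers (α (Sum.inr j)))⟩) := by
  unfold Ph
  rw [FreeGroup.lift_apply_of]

omit [Fintype A] in
theorem mk_mul_gen (j : Fin N) (a : A) :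
    ((a * α (Sum.inr j) : A) : A ⧸ Subgroup.zpowers (α (Sum.inr j))) =
      (a : A ⧸ Subgroup.zpowers (α (Sum.inr j))) := by
  rw [QuotientGroup.eq, mul_inv_rev, inv_mul_cancel_right]
  exact Subgroup.inv_mem _ (Subgroup.mem_zpowers _)

theorem Ph_Th (f : Vx α g₀ → T2) (w : FreeGroup (X h N)) : ∀ a : A,
    Ph f (Th α a w) = (bf f a)⁻¹ * bf f (a * FreeGroup.lift α w) := by
  have hof : ∀ (x : X h N) (a : A),
      Ph f (Th α a (FreeGroup.of x)) = (bf f a)⁻¹ * bf f (a * α x) := by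
    intro x a
    rcases x with c | j
    · rw [Th_inl, Ph_inl]
    rw [Th_inr, map_mul, map_inv, Ph_inr, Ph_inr, mk_mul_gen, mul_inv_rev, inv_inv]
    rw [mul_assoc, mul_comm (f (Sum.inr ⟨j, (a : A ⧸ Subgroup.zpowers (α (Sum.inr j)))⟩)),
      mul_comm _ (bf f (a * α (Sum.inr j))), mul_assoc, inv_mul_cancel, mul_one]
  induction w using FreeGroup.induction_on with
  | C1 => intro a; rw [Th_one, map_one, map_one, mul_one, inv_mul_cancel]
  | of j => intro a; rw [hof, FreeGroup.lift_apply_of]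
  | inv_of j _ =>
    intro a
    rw [Th_inv, map_inv, map_inv, FreeGroup.lift_apply_of, hof, inv_mul_cancel_right, mul_inv_rev,
      inv_inv]
  | mul x y hx hy =>
    intro a
    rw [Th_mul, map_mul, hx, hy, map_mul, mul_assoc (bf f a)⁻¹, mul_inv_cancel_left, mul_assoc a]

theorem bf_base (f : Vx α g₀ → T2) : bf f g₀ = 1 := by
  unfold bf
  rw [dif_neg (by simp)]

theorem Dat.card_homs (D : Dat α m g₀ g) :
    Nat.card {ψ : FreeGroup (X h N × A) →* T2 // ∀ z ∈ (Jh α g₀).range, ψ z = 1} =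
      2 ^ (Nat.card (Vx α g₀)) := by
  classical
  have h1 : Nat.card (Vx α g₀ → T2) = 2 ^ (Nat.card (Vx α g₀)) := by
    rw [Nat.card_fun, card_T2]
  rw [← h1]
  symm
  have hmem : ∀ f : Vx α g₀ → T2, ∀ z ∈ (Jh α g₀).range, Ph f z = 1 := by
    rintro f _ ⟨⟨w, hw⟩, rfl⟩
    change Ph f (Th α g₀ w) = 1
    rw [MonoidHom.mem_ker] at hw
    rw [Ph_Th, hw, mul_one, inv_mul_cancel]
  obtain ⟨u, hu, hsec⟩ := D.exists_sec
  refine Nat.card_eq_of_bijective (fun f => (⟨Ph f, hmem f⟩ :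
    {ψ : FreeGroup (X h N × A) →* T2 // ∀ z ∈ (Jh α g₀).range, ψ z = 1})) ⟨?_, ?_⟩
  · intro f f' hff
    have h2 : Ph f = Ph f' := congrArg Subtype.val hff
    have hb : ∀ a, bf f a = bf f' a := by
      intro a
      have h3 := congrArg (fun ψ : FreeGroup (X h N × A) →* T2 => ψ (Th α g₀ (u a))) h2
      simp only [Ph_Th, bf_base, hu, inv_one, one_mul, mul_inv_cancel_left] at h3
      exact h3
    funext v
    rcases v with ⟨a, ha⟩ | ⟨j, q⟩
    · have h3 := hb a
      unfold bf at h3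
      rwa [dif_pos ha, dif_pos ha] at h3
    · obtain ⟨a, rfl⟩ := QuotientGroup.mk_surjective q
      have h3 := congrArg (fun ψ : FreeGroup (X h N × A) →* T2 =>
        ψ (FreeGroup.of (Sum.inr j, a))) h2
      simp only [Ph_inr, hb] at h3
      exact mul_left_cancel h3
  · rintro ⟨ψ, hψ⟩
    have hR : ∀ z z', Rl (Jh α g₀).range z z' → ψ z = ψ z' := by
      intro z z' h
      have h2 := hψ _ h
      rw [map_mul, map_inv, mul_inv_eq_one] at h2
      exact h2
    have hsec' := hsec _ le_rfl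
    set B : A → T2 := fun a => ψ (Th α g₀ (u a)) with hB
    have hB1 : B g₀ = 1 := by
      have h2 : FreeGroup.lift α (u g₀) = 1 := by rw [hu, inv_mul_cancel]
      exact hψ _ (Th_mem_range h2)
    have hB2 : ∀ a w, B a * ψ (Th α a w) = B (a * FreeGroup.lift α w) := by
      intro a w
      have h2 := hR _ _ (hsec' a w)
      rwa [map_mul] at h2
    set fB : Vx α g₀ → T2 := fun v => match v with
      | Sum.inl a => B a.1
      | Sum.inr ⟨j, q⟩ => B q.out * ψ (FreeGroup.of (Sum.inr j, q.out)) with hfB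
    have hbf : ∀ a, bf fB a = B a := by
      intro a
      unfold bf
      by_cases h : a ≠ g₀
      · rw [dif_pos h]
      · rw [dif_neg h]
        rw [ne_eq, not_not] at h
        rw [h, hB1]
    refine ⟨fB, ?_⟩
    apply Subtype.ext
    apply FreeGroup.ext_hom
    rintro ⟨c | j, a⟩
    · change Ph _ (FreeGroup.of (Sum.inl c, a)) = ψ (FreeGroup.of (Sum.inl c, a))
      rw [Ph_inl, hbf, hbf]
      have h3 := hB2 a (FreeGroup.of (Sum.inl c))
      rw [Th_inl, FreeGroup.lift_apply_of] at h3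
      rw [← h3, inv_mul_cancel_left]
    change Ph _ (FreeGroup.of (Sum.inr j, a)) = ψ (FreeGroup.of (Sum.inr j, a))
    rw [Ph_inr, hbf]
    change (B a)⁻¹ * (B (a : A ⧸ Subgroup.zpowers (α (Sum.inr j))).out *
      ψ (FreeGroup.of (Sum.inr j, (a : A ⧸ Subgroup.zpowers (α (Sum.inr j))).out))) = _
    obtain ⟨⟨y, hh⟩, h2⟩ := QuotientGroup.mk_out_eq_mul (Subgroup.zpowers (α (Sum.inr j))) a
    obtain ⟨z, rfl⟩ := Subgroup.mem_zpowers_iff.1 hh
    rw [h2]
    have h3 := hB2 a (FreeGroup.of (Sum.inr j) ^ z)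
    rw [Th_zpow, map_zpow, FreeGroup.lift_apply_of, map_mul, map_inv] at h3
    change (B a)⁻¹ * (B (a * α (Sum.inr j) ^ z) *
      ψ (FreeGroup.of (Sum.inr j, a * α (Sum.inr j) ^ z))) = _
    rw [← h3]
    rw [mul_assoc, mul_assoc, inv_mul_cancel, mul_one, inv_mul_cancel_left]

theorem card_Vx (α : X h N → A) (g₀ : A) : Nat.card (Vx α g₀) + 1 =
    Nat.card A + ∑ j : Fin N, Nat.card (A ⧸ Subgroup.zpowers (α (Sum.inr j))) := by
  classical
  haveI : ∀ j : Fin N, Fintype (A ⧸ Subgroup.zpowers (α (Sum.inr j))) :=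
    fun j => Fintype.ofFinite _
  rw [Nat.card_sum, Nat.card_sigma]
  have h1 : Nat.card {a : A // a ≠ g₀} + 1 = Nat.card A := by
    rw [Nat.card_eq_fintype_card, Nat.card_eq_fintype_card, Fintype.card_subtype_compl]
    have h2 : Fintype.card {a : A // a = g₀} = 1 := Fintype.card_subtype_eq g₀
    have h3 : 0 < Fintype.card A := Fintype.card_pos
    rw [h2]
    omega
  omega

end Pool.MP_59b15d_al.H95H
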