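import Pool.Agent.H.MP_59b15d_al.h95h.Mh7
import Pool.Agent.H.MP_59b15d_al.h95.Mf8

/-!
# The surface group of the closed paths
-/

set_option autoImplicit false

namespace Pool.MP_59b15d_al.H95H

open Pool.MP_59b15d_al.Sym (Gg cW)
open Pool.MP_59b15d_al.H95 (vl vl_nil vl_cons vl_append vl_map gn range_gn range_gn_inl perm_vl
  normal_form hset cprod)

variable {h N s : ℕ} {A : Type*} [Group A] [Fintype A] {α : X h N → A} {m : ℕ} {g₀ : A}
  {g : Fin s → A}

/-- The normal form of the closed paths. -/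
theorem Dat.surface (D : Dat α m g₀ g) : ∃ (p d : ℕ)
    (φ : FreeGroup (((Fin p ⊕ Fin p) ⊕ Fin s) ⊕ Fin d) ≃* FreeGroup (X h N × A)),
    (((FreeGroup.lift fun x => φ (FreeGroup.of (Sum.inl x))) :
      Gg p s →* FreeGroup (X h N × A)).range = (Jh α g₀).range) ∧
    Th α g₀ ((fw h N m).map yv).prod =
      (FreeGroup.lift fun x => φ (FreeGroup.of (Sum.inl x))) (cW p s) ∧
    (∀ k : Fin s, ∃ q : FreeGroup (X h N × A), φ (FreeGroup.of (Sum.inl (Sum.inr k))) =
      q * (Th α (g k) ((fw h N m).map yv).prod)⁻¹ * q⁻¹) ∧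
    2 * p + s + d = (2 * h + N) * Fintype.card A := by
  classical
  obtain ⟨L, hP, hperm, hgen, hlen, hgood⟩ := D.sys.merge
  obtain ⟨H, Z, ε', Dl, r1, r2, r3, r4, r5, r6⟩ := normal_form L.length L (vv α m g) _ rfl hP
  have hZ : Z.Perm ((List.finRange s).map (Sum.inr : Fin s → Dt h N s A)) := by
    refine (r3.trans hperm).trans (List.Perm.map _ ?_)
    refine (List.perm_ext_iff_of_nodup (Finset.nodup_toList _) (List.nodup_finRange s)).2 ?_
    intro a
    simp
  have hZn : Z.Nodup := hZ.nodup_iff.2 ((List.nodup_finRange s).map Sum.inr_injective)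
  obtain ⟨ε'', t1, t2, t3⟩ := perm_vl hZ hZn ε'
  set δ : Fin s → FreeGroup (X h N × A) := fun k => ε'' (Sum.inr k) with hδ
  have him : ε'' '' {i | i ∈ (List.finRange s).map (Sum.inr : Fin s → Dt h N s A)} =
      Set.range δ := by
    ext z
    simp [hδ]
  rw [him] at t3
  have hcl : Subgroup.closure (Set.range (gn H δ Dl)) = ⊤ := by
    rw [range_gn, ← Set.union_assoc, Subgroup.closure_union, Subgroup.closure_union, t3,
      ← Subgroup.closure_union, ← Subgroup.closure_union, Set.union_assoc]
    rw [r5] at hgen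
    exact hgen
  have hsurj : Function.Surjective (FreeGroup.lift (gn H δ Dl)) := by
    rw [← MonoidHom.range_eq_top, FreeGroup.range_lift_eq_closure, hcl]
  have hZl : Z.length = s := by
    rw [hZ.length_eq]
    simp
  have hcard : 2 * H.length + s + Dl.length = (2 * h + N) * Fintype.card A := by
    rw [fcl_length] at hlen
    simp only [fcl_length, Finset.sum_const, Finset.card_univ, Fintype.card_fin,
      smul_eq_mul] at hlen
    rw [D.card]
    have e1 : (2 * h + N) * (m * (s + 1)) = m * (2 * h + N) + s * (m * (2 * h + N)) := by ring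
    have e2 : s * (m * (2 * (2 * h + N))) = 2 * (s * (m * (2 * h + N))) := by ring
    have e3 : m * (2 * (2 * h + N)) = 2 * (m * (2 * h + N)) := by ring
    rw [e2, e3] at hlen
    omega
  have hinj : Function.Injective (FreeGroup.lift (gn H δ Dl)) := by
    refine Pool.MP_59b15d_al.H19S.hopf ?_ _ hsurj
    rw [Nat.card_eq_fintype_card, Nat.card_eq_fintype_card]
    simp only [Fintype.card_sum, Fintype.card_fin, Fintype.card_prod]
    have e1 : (h + h + N) * Fintype.card A = (2 * h + N) * Fintype.card A := by ring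
    rw [e1, ← hcard]
    ring
  set φ : FreeGroup (((Fin H.length ⊕ Fin H.length) ⊕ Fin s) ⊕ Fin Dl.length) ≃*
    FreeGroup (X h N × A) := MulEquiv.ofBijective _ ⟨hinj, hsurj⟩ with hφ
  have hφof : ∀ x, φ (FreeGroup.of x) = gn H δ Dl x := by
    intro x
    rw [hφ]
    simp
  refine ⟨H.length, Dl.length, φ, ?_, ?_, ?_, hcard⟩
  · rw [FreeGroup.range_lift_eq_closure]
    have e1 : (fun x => φ (FreeGroup.of (Sum.inl x))) = fun x => gn H δ Dl (Sum.inl x) := by
      funext x
      exact hφof _
    rw [e1, range_gn_inl, Subgroup.closure_union, t3, ← Subgroup.closure_union, ← r4]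
    have h1 := fun K => (hgood K).trans (D.good_iff K)
    exact le_antisymm ((h1 _).2 le_rfl) ((h1 _).1 le_rfl)
  · rw [vl_fcl, vl_wd] at r1
    rw [r1, cW, map_mul, ← t1]
    congr 1
    · rw [map_list_prod, cprod]
      congr 1
      rw [List.map_ofFn]
      apply List.ext_getElem
      · simp
      · intro n h1 h2
        simp [hφof, gn]
    · rw [map_list_prod, vl]
      congr 1
      rw [List.map_ofFn, List.map_map]
      apply List.ext_getElem
      · simp
      · intro n h1 h2
        simp [hφof, gn, hδ]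
  · intro k
    obtain ⟨q1, h1⟩ := r2 (Sum.inr k)
    obtain ⟨q2, h2⟩ := t2 (Sum.inr k)
    refine ⟨q2 * q1, ?_⟩
    rw [hφof]
    change ε'' (Sum.inr k) = _
    rw [h2, h1]
    have h3 : vv α m g (Sum.inr k : Dt h N s A) = (Th α (g k) ((fw h N m).map yv).prod)⁻¹ := by
      rw [← vl_wd]
      rfl
    rw [h3]
    group

end Pool.MP_59b15d_al.H95H
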